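import Pool.Agent.Run7.h35.TT.LemD

/-!
# The random vector: hits of its own rows
-/

set_option autoImplicit false

open Finset

namespace Run7.h35.TT

/-- the law of one selector: zero with probability `1 - κ`, otherwise a random sign -/
noncomputable def w3 (κ : ℝ) : Fin 3 → ℝ := ![1 - κ, κ / 2, κ / 2]

/-- the values of the selector -/
def th : Fin 3 → ℝ := ![0, 1, -1]

theorem w3_nonneg {κ : ℝ} (h0 : 0 ≤ κ) (h1 : κ ≤ 1) (a : Fin 3) : 0 ≤ w3 κ a := by
  fin_cases a <;> simp [w3] <;> linarith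

theorem w3_sum (κ : ℝ) : ∑ a, w3 κ a = 1 := by
  simp [w3, Fin.sum_univ_three]; ring

theorem w3_1 (κ : ℝ) : ∑ a, w3 κ a * th a = 0 := by
  simp [w3, th, Fin.sum_univ_three]

theorem w3_2 (κ : ℝ) : ∑ a, w3 κ a * th a ^ 2 = κ := by
  simp [w3, th, Fin.sum_univ_three]

theorem w3_3 (κ : ℝ) : ∑ a, w3 κ a * th a ^ 3 = 0 := by
  simp [w3, th, Fin.sum_univ_three]; ring

theorem w3_4 (κ : ℝ) : ∑ a, w3 κ a * th a ^ 4 = κ := by
  simp [w3, th, Fin.sum_univ_three]; ring

theorem th_sq (a : Fin 3) : th a ^ 2 = 0 ∨ th a ^ 2 = 1 := by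
  fin_cases a <;> simp [th]

theorem th_sq_eq (a : Fin 3) : th a ^ 2 = if a = 0 then 0 else 1 := by
  fin_cases a <;> simp [th]

theorem th_sq_mul_self (a : Fin 3) : th a ^ 2 * th a ^ 2 = th a ^ 2 := by
  rcases th_sq a with h | h <;> rw [h] <;> norm_num

variable {m b : ℕ}

/-- the random combination of the columns of `P` -/
def xs (P : Fin m × Fin b → Fin m × Fin b → ℝ) (ω : Fin m × Fin b → Fin 3) (j : Fin m × Fin b) : ℝ :=
  ∑ l, th (ω l) * P j l

/-- indicator of the event that the row `i` is selected -/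
noncomputable def hit (i : Fin m) (ω : Fin m × Fin b → Fin 3) : ℝ :=
  open Classical in if ∃ t, ω (i, t) ≠ 0 then 1 else 0

theorem hit_01 (i : Fin m) (ω : Fin m × Fin b → Fin 3) : hit i ω = 0 ∨ hit i ω = 1 := by
  unfold hit; split_ifs <;> simp

theorem hit_le (i : Fin m) (ω : Fin m × Fin b → Fin 3) : hit i ω ≤ ∑ t, th (ω (i, t)) ^ 2 := by
  unfold hit
  split_ifs with h
  · obtain ⟨t, ht⟩ := h
    calc (1:ℝ) = th (ω (i, t)) ^ 2 := by rw [th_sq_eq, if_neg ht]
      _ ≤ _ := Finset.single_le_sum (f := fun t => th (ω (i, t)) ^ 2) (fun _ _ => sq_nonneg _)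
          (Finset.mem_univ t)
  · exact Finset.sum_nonneg fun _ _ => sq_nonneg _

theorem EE_hit_le {κ : ℝ} (h0 : 0 ≤ κ) (h1 : κ ≤ 1) (i : Fin m) :
    EE (w3 κ) (hit (b := b) i) ≤ κ * b := by
  calc EE (w3 κ) (hit (b := b) i) ≤ EE (w3 κ) (fun ω => ∑ t, th (ω (i, t)) ^ 2) :=
        EE_mono _ (w3_nonneg h0 h1) _ _ (hit_le i)
    _ = ∑ t : Fin b, κ := by
        rw [EE_sum]
        refine Finset.sum_congr rfl fun t _ => ?_
        rw [EE_coord _ (w3_sum κ) (i, t) (fun a => th a ^ 2), w3_2]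
    _ = κ * b := by simp [mul_comm]

theorem min_pair (P z : ℝ) (h0 : 0 ≤ P) (h1 : P ≤ 1) :
    P ≤ min |P + z| 1 + min |-P + z| 1 := by
  have h2 : 2 * P ≤ |P + z| + |-P + z| := by
    calc 2 * P = (P + z) - (-P + z) := by ring
      _ ≤ |P + z| + |-P + z| := by
        linarith [le_abs_self (P + z), neg_abs_le (-P + z)]
  rcases le_total |P + z| 1 with h3 | h3 <;> rcases le_total |-P + z| 1 with h4 | h4
  · rw [min_eq_left h3, min_eq_left h4]; linarith
  · rw [min_eq_left h3, min_eq_right h4]; linarith [abs_nonneg (P + z)]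
  · rw [min_eq_right h3, min_eq_left h4]; linarith [abs_nonneg (-P + z)]
  · rw [min_eq_right h3, min_eq_right h4]; linarith

theorem diag_nonneg {P : Fin m × Fin b → Fin m × Fin b → ℝ} (hP : ∀ j, ∑ l, P j l ^ 2 = P j j)
    (j : Fin m × Fin b) : 0 ≤ P j j := by
  rw [← hP j]; positivity

theorem diag_le_one {P : Fin m × Fin b → Fin m × Fin b → ℝ} (hP : ∀ j, ∑ l, P j l ^ 2 = P j j)
    (j : Fin m × Fin b) : P j j ≤ 1 := by
  have h1 : P j j ^ 2 ≤ P j j := by
    calc P j j ^ 2 ≤ ∑ l, P j l ^ 2 :=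
          Finset.single_le_sum (f := fun l => P j l ^ 2) (fun _ _ => sq_nonneg _)
            (Finset.mem_univ j)
      _ = P j j := hP j
  by_contra h
  push Not at h
  nlinarith

/-- the expectation of the truncated entry on its own selection -/
theorem entry_lower {κ : ℝ} (h0 : 0 ≤ κ) (h1 : κ ≤ 1) {P : Fin m × Fin b → Fin m × Fin b → ℝ}
    (hP : ∀ j, ∑ l, P j l ^ 2 = P j j) (j : Fin m × Fin b) :
    κ / 2 * P j j ≤ EE (w3 κ) (fun ω => min |xs P ω j| 1 * th (ω j) ^ 2) := by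
  rw [resample _ (w3_sum κ) j, ← EE_const (J := Fin m × Fin b) (w3 κ) (w3_sum κ) (κ / 2 * P j j)]
  refine EE_mono _ (w3_nonneg h0 h1) _ _ fun ω => ?_
  have hx : ∀ a, xs P (Function.update ω j a) j = th a * P j j +
      ∑ l ∈ univ.erase j, th (ω l) * P j l := by
    intro a
    unfold xs
    rw [← Finset.add_sum_erase univ _ (Finset.mem_univ j), Function.update_self]
    congr 1
    refine Finset.sum_congr rfl fun l hl => ?_
    rw [Function.update_of_ne (Finset.ne_of_mem_erase hl)]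
  simp only [hx, Function.update_self, Fin.sum_univ_three]
  set z := ∑ l ∈ univ.erase j, th (ω l) * P j l
  have h2 := min_pair (P j j) z (diag_nonneg hP j) (diag_le_one hP j)
  have e0 : th 0 = 0 := rfl
  have e1 : th 1 = 1 := rfl
  have e2 : th 2 = -1 := rfl
  have f1 : w3 κ 1 = κ / 2 := rfl
  have f2 : w3 κ 2 = κ / 2 := rfl
  rw [e0, e1, e2, f1, f2]
  have e3 : (1:ℝ) * P j j + z = P j j + z := by ring
  have e4 : (-1:ℝ) * P j j + z = -P j j + z := by ring
  rw [e3, e4]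
  nlinarith

/-- the truncated norm on the selected rows, seen through a family `N i` of row norms -/
theorem hit_lower {κ : ℝ} (h0 : 0 ≤ κ) (h1 : κ ≤ 1) {P : Fin m × Fin b → Fin m × Fin b → ℝ}
    (hP : ∀ j, ∑ l, P j l ^ 2 = P j j) (N : Fin m → (Fin m × Fin b → Fin 3) → ℝ)
    (hN : ∀ i t ω, |xs P ω (i, t)| ≤ N i ω) (hN0 : ∀ i ω, 0 ≤ N i ω) :
    κ / 2 * ∑ j, P j j - κ ^ 2 * (m * b * b) ≤
      EE (w3 κ) (fun ω => ∑ i, hit i ω * min (N i ω) 1) := by
  have hw := w3_nonneg h0 h1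
  have hw1 := w3_sum κ
  have hpt : ∀ ω : Fin m × Fin b → Fin 3, ∑ i, ∑ t, min |xs P ω (i, t)| 1 * th (ω (i, t)) ^ 2 *
      (1 - ∑ t' ∈ univ.erase t, th (ω (i, t')) ^ 2) ≤ ∑ i, hit i ω * min (N i ω) 1 := by
    intro ω
    refine Finset.sum_le_sum fun i _ => ?_
    refine bonferroni (fun t => min |xs P ω (i, t)| 1) (fun t => th (ω (i, t)) ^ 2) _ ?_
      (fun t => th_sq _) (fun t => le_min (abs_nonneg _) zero_le_one) ?_
    · have : 0 ≤ hit i ω := by rcases hit_01 i ω with h | h <;> rw [h]; norm_num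
      exact mul_nonneg this (le_min (hN0 i ω) zero_le_one)
    · intro t ht
      have h2 : hit i ω = 1 := by
        unfold hit
        rw [if_pos]
        refine ⟨t, fun h => ?_⟩
        rw [h] at ht
        simp [th] at ht
      rw [h2, one_mul]
      exact min_le_min_right 1 (hN i t ω)
  refine le_trans ?_ (EE_mono _ hw _ _ hpt)
  rw [EE_sum]
  have h3 : ∀ i : Fin m, EE (w3 κ) (fun ω : Fin m × Fin b → Fin 3 =>
      ∑ t, min |xs P ω (i, t)| 1 * th (ω (i, t)) ^ 2 *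
      (1 - ∑ t' ∈ univ.erase t, th (ω (i, t')) ^ 2)) ≥ ∑ t, (κ / 2 * P (i, t) (i, t) - κ ^ 2 * b) := by
    intro i
    rw [EE_sum]
    refine Finset.sum_le_sum fun t _ => ?_
    have h4 : ∀ ω : Fin m × Fin b → Fin 3, min |xs P ω (i, t)| 1 * th (ω (i, t)) ^ 2 -
        ∑ t' ∈ univ.erase t, th (ω (i, t)) ^ 2 * th (ω (i, t')) ^ 2 ≤
        min |xs P ω (i, t)| 1 * th (ω (i, t)) ^ 2 *
          (1 - ∑ t' ∈ univ.erase t, th (ω (i, t')) ^ 2) := by
      intro ω
      rw [mul_sub, mul_one, Finset.mul_sum]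
      refine sub_le_sub_left (Finset.sum_le_sum fun t' _ => ?_) _
      refine mul_le_mul_of_nonneg_right ?_ (sq_nonneg _)
      have : min |xs P ω (i, t)| 1 ≤ 1 := min_le_right _ _
      nlinarith [sq_nonneg (th (ω (i, t)))]
    refine le_trans ?_ (EE_mono _ hw _ _ h4)
    rw [EE_sub, EE_sum]
    have h5 := entry_lower h0 h1 hP (i, t)
    have h6 : ∑ t' ∈ univ.erase t, EE (w3 κ) (fun ω : Fin m × Fin b → Fin 3 =>
        th (ω (i, t)) ^ 2 * th (ω (i, t')) ^ 2) ≤ κ ^ 2 * b := by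
      calc ∑ t' ∈ univ.erase t, EE (w3 κ) (fun ω : Fin m × Fin b → Fin 3 =>
          th (ω (i, t)) ^ 2 * th (ω (i, t')) ^ 2) = ∑ t' ∈ univ.erase t, κ ^ 2 := by
            refine Finset.sum_congr rfl fun t' ht' => ?_
            rw [EE_pair _ hw1 (i, t) (i, t') (by
              intro h
              exact (Finset.ne_of_mem_erase ht') (Prod.ext_iff.1 h).2) (fun a => th a ^ 2)
              (fun a => th a ^ 2), w3_2]
            ring
        _ ≤ ∑ _t' : Fin b, κ ^ 2 := Finset.sum_le_sum_of_subset_of_nonneg (Finset.erase_subset _ _)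
              (fun _ _ _ => sq_nonneg _)
        _ = κ ^ 2 * b := by simp [mul_comm]
    linarith
  refine le_trans (le_of_eq ?_) (Finset.sum_le_sum fun i _ => h3 i)
  simp only [Finset.sum_sub_distrib, ← Finset.mul_sum, Fintype.sum_prod_type, Finset.sum_const,
    Finset.card_univ, Fintype.card_fin, nsmul_eq_mul]
  ring

/-- the second moment of the number of hits -/
theorem count_sq {κ : ℝ} (h0 : 0 ≤ κ) (h1 : κ ≤ 1) :
    EE (w3 κ) (fun ω : Fin m × Fin b → Fin 3 => (∑ j, th (ω j) ^ 2) ^ 2) ≤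
      κ * (m * b) + (κ * (m * b)) ^ 2 := by
  have hw := w3_nonneg h0 h1
  have hw1 := w3_sum κ
  have h2 : ∀ ω : Fin m × Fin b → Fin 3, (∑ j, th (ω j) ^ 2) ^ 2 =
      ∑ j, ∑ l, th (ω j) ^ 2 * th (ω l) ^ 2 := by
    intro ω
    rw [sq, Finset.sum_mul_sum]
  simp only [h2]
  rw [EE_sum]
  have h3 : ∀ j : Fin m × Fin b, EE (w3 κ) (fun ω : Fin m × Fin b → Fin 3 =>
      ∑ l, th (ω j) ^ 2 * th (ω l) ^ 2) ≤ κ + κ ^ 2 * (m * b) := by
    intro j
    rw [EE_sum, ← Finset.add_sum_erase univ _ (Finset.mem_univ j)]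
    refine add_le_add ?_ ?_
    · simp only [th_sq_mul_self]
      rw [EE_coord _ hw1 j (fun a => th a ^ 2), w3_2]
    · calc ∑ l ∈ univ.erase j, EE (w3 κ) (fun ω : Fin m × Fin b → Fin 3 =>
          th (ω j) ^ 2 * th (ω l) ^ 2) = ∑ l ∈ univ.erase j, κ ^ 2 := by
            refine Finset.sum_congr rfl fun l hl => ?_
            rw [EE_pair _ hw1 j l (Finset.ne_of_mem_erase hl) (fun a => th a ^ 2)
              (fun a => th a ^ 2), w3_2]
            ring
        _ ≤ ∑ _l : Fin m × Fin b, κ ^ 2 :=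
              Finset.sum_le_sum_of_subset_of_nonneg (Finset.erase_subset _ _)
              (fun _ _ _ => sq_nonneg _)
        _ = κ ^ 2 * (m * b) := by simp [mul_comm]
  refine le_trans (Finset.sum_le_sum fun j _ => h3 j) (le_of_eq ?_)
  simp only [Finset.sum_const, Finset.card_univ, Fintype.card_prod, Fintype.card_fin, nsmul_eq_mul]
  push_cast
  ring

end Run7.h35.TT
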