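import Pool.Agent.Run7.h35.TT.CoreA

/-!
# The small entries: pigeonhole over scales and the fourth moment
-/

set_option autoImplicit false

open Finset

namespace Run7.h35.TT

variable {m b : ℕ}

/-- the entries of square below `η` -/
noncomputable def small (η : ℝ) (P : Fin m × Fin b → Fin m × Fin b → ℝ) (j l : Fin m × Fin b) : ℝ :=
  open Classical in if P j l ^ 2 < η then P j l else 0

theorem small_sq_le (η : ℝ) (P : Fin m × Fin b → Fin m × Fin b → ℝ) (j l : Fin m × Fin b) :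
    small η P j l ^ 2 ≤ P j l ^ 2 := by
  unfold small; split_ifs
  · exact le_rfl
  · simpa using sq_nonneg (P j l)

/-- Among `K` scales there is one with little energy just below. -/
theorem exists_scale {P : Fin m × Fin b → Fin m × Fin b → ℝ} (hP : ∀ j, ∑ l, P j l ^ 2 = P j j)
    (K : ℕ) (hK : 1 ≤ K) :
    ∃ l, 1 ≤ l ∧ l ≤ K ∧ ∑ j, ∑ j', small (((K : ℝ)⁻¹) ^ l) P j j' ^ 4 ≤
      2 * ((K : ℝ)⁻¹) ^ l * (m * b) / K := by
  have hK0 : (0:ℝ) < K := by exact_mod_cast hK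
  set q : ℝ := (K : ℝ)⁻¹ with hq
  have hq0 : 0 < q := inv_pos.2 hK0
  set g : ℕ → ℝ := fun l => ∑ j, ∑ j', small (q ^ l) P j j' ^ 2 with hg
  have htot : ∀ l, g l ≤ m * b := by
    intro l
    calc g l ≤ ∑ j : Fin m × Fin b, ∑ j', P j j' ^ 2 :=
          Finset.sum_le_sum fun j _ => Finset.sum_le_sum fun j' _ => small_sq_le _ P j j'
      _ = ∑ j, P j j := Finset.sum_congr rfl fun j _ => hP j
      _ ≤ ∑ _j : Fin m × Fin b, (1:ℝ) := Finset.sum_le_sum fun j _ => diag_le_one hP j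
      _ = m * b := by simp
  have hg0 : ∀ l, 0 ≤ g l := fun l => Finset.sum_nonneg fun j _ => Finset.sum_nonneg fun j' _ =>
    sq_nonneg _
  -- pigeonhole
  have hex : ∃ l ∈ Finset.range K, g (l + 1) - g (l + 1 + 1) ≤ (m * b) / K := by
    by_contra hcon
    push Not at hcon
    have h1 : ∑ l ∈ Finset.range K, (m * b : ℝ) / K < ∑ l ∈ Finset.range K,
        (g (l + 1) - g (l + 1 + 1)) :=
      Finset.sum_lt_sum_of_nonempty ⟨0, by simpa using (by omega : 0 < K)⟩ fun l hl => hcon l hl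
    rw [Finset.sum_range_sub' (fun l => g (l + 1)) K] at h1
    rw [Finset.sum_const, Finset.card_range, nsmul_eq_mul, mul_div_cancel₀ _ hK0.ne'] at h1
    have h2 := htot (0 + 1)
    have h3 := hg0 (K + 1)
    linarith
  obtain ⟨l, hl, hle⟩ := hex
  refine ⟨l + 1, by omega, by have := Finset.mem_range.1 hl; omega, ?_⟩
  have hpt : ∀ j j', small (q ^ (l + 1)) P j j' ^ 4 ≤ q ^ (l + 1) / K * P j j' ^ 2 +
      q ^ (l + 1) * (small (q ^ (l + 1)) P j j' ^ 2 - small (q ^ (l + 1 + 1)) P j j' ^ 2) := by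
    intro j j'
    have hη0 : 0 < q ^ (l + 1) := pow_pos hq0 _
    have hη : q ^ (l + 1 + 1) = q ^ (l + 1) / K := by
      rw [pow_succ q (l + 1), hq, div_eq_mul_inv]
    have hp0 : 0 ≤ P j j' ^ 2 := sq_nonneg _
    unfold small
    rw [hη]
    by_cases h1 : P j j' ^ 2 < q ^ (l + 1)
    · rw [if_pos h1]
      by_cases h2 : P j j' ^ 2 < q ^ (l + 1) / K
      · rw [if_pos h2]
        have : P j j' ^ 4 = P j j' ^ 2 * P j j' ^ 2 := by ring
        rw [this]
        nlinarith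
      · rw [if_neg h2]
        have : P j j' ^ 4 = P j j' ^ 2 * P j j' ^ 2 := by ring
        rw [this]
        have h3 : 0 ≤ q ^ (l + 1) / K * P j j' ^ 2 := by positivity
        nlinarith
    · have h2 : ¬ P j j' ^ 2 < q ^ (l + 1) / K := by
        push Not at h1 ⊢
        refine le_trans (div_le_self hη0.le ?_) h1
        exact_mod_cast hK
      rw [if_neg h1, if_neg h2]
      have h3 : 0 ≤ q ^ (l + 1) / K * P j j' ^ 2 := by positivity
      simpa using h3
  calc ∑ j, ∑ j', small (q ^ (l + 1)) P j j' ^ 4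
      ≤ ∑ j, ∑ j', (q ^ (l + 1) / K * P j j' ^ 2 +
        q ^ (l + 1) * (small (q ^ (l + 1)) P j j' ^ 2 - small (q ^ (l + 1 + 1)) P j j' ^ 2)) :=
        Finset.sum_le_sum fun j _ => Finset.sum_le_sum fun j' _ => hpt j j'
    _ = q ^ (l + 1) / K * ∑ j, P j j + q ^ (l + 1) * (g (l + 1) - g (l + 1 + 1)) := by
        simp only [Finset.sum_add_distrib, ← Finset.mul_sum, Finset.sum_sub_distrib, hg, hP]
    _ ≤ q ^ (l + 1) / K * (m * b) + q ^ (l + 1) * ((m * b) / K) := by
        have h1 : ∑ j, P j j ≤ (m * b : ℝ) := by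
          calc ∑ j, P j j ≤ ∑ _j : Fin m × Fin b, (1:ℝ) :=
                Finset.sum_le_sum fun j _ => diag_le_one hP j
            _ = m * b := by simp
        have h2 : 0 < q ^ (l + 1) := pow_pos hq0 _
        exact add_le_add (mul_le_mul_of_nonneg_left h1 (by positivity))
          (mul_le_mul_of_nonneg_left hle h2.le)
    _ = 2 * q ^ (l + 1) * (m * b) / K := by ring

/-- The fourth power of the average norm of the small part. -/
theorem small_bound {κ : ℝ} (h0 : 0 ≤ κ) (h1 : κ ≤ 1) (hm : 0 < m)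
    {P : Fin m × Fin b → Fin m × Fin b → ℝ}
    (hP : ∀ j, ∑ l, P j l ^ 2 = P j j) (η : ℝ) (R : ℝ)
    (hR : ∑ j, ∑ j', small η P j j' ^ 4 ≤ R) (N : Fin m → (Fin m × Fin b → Fin 3) → ℝ)
    (hN0 : ∀ i ω, 0 ≤ N i ω) (hN : ∀ i ω, N i ω ^ 4 = ∑ t, xs (small η P) ω (i, t) ^ 4) :
    (EE (w3 κ) (fun ω => ∑ i, N i ω)) ^ 4 ≤ m ^ 3 * (κ * R + 3 * κ ^ 2 * (m * b)) := by
  have hw := w3_nonneg h0 h1
  have hw1 := w3_sum κ
  have hm0 : (0:ℝ) < m := by exact_mod_cast hm
  -- power mean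
  have hpm : ((1 / m : ℝ) * EE (w3 κ) (fun ω => ∑ i, N i ω)) ^ 4 ≤
      (1 / m) * EE (w3 κ) (fun ω => ∑ i, N i ω ^ 4) := by
    have key := Real.pow_arith_mean_le_arith_mean_pow
      (univ : Finset ((Fin m × Fin b → Fin 3) × Fin m))
      (fun p => Wt (w3 κ) p.1 * (1 / m)) (fun p => N p.2 p.1)
      (fun p _ => mul_nonneg (Wt_nonneg _ hw _) (by positivity)) ?_
      (fun p _ => hN0 _ _) 4
    · have e1 : ∀ F : Fin m → (Fin m × Fin b → Fin 3) → ℝ,
          ∑ p : (Fin m × Fin b → Fin 3) × Fin m, Wt (w3 κ) p.1 * (1 / m) * F p.2 p.1 =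
          (1 / m) * EE (w3 κ) (fun ω => ∑ i, F i ω) := by
        intro F
        rw [Fintype.sum_prod_type]
        unfold EE
        rw [Finset.mul_sum]
        refine Finset.sum_congr rfl fun ω _ => ?_
        rw [Finset.mul_sum, Finset.mul_sum]
        exact Finset.sum_congr rfl fun i _ => by ring
      rw [e1 N] at key
      have e2 := e1 (fun i ω => N i ω ^ 4)
      rw [e2] at key
      exact key
    · rw [Fintype.sum_prod_type]
      have : ∀ ω : Fin m × Fin b → Fin 3, ∑ _i : Fin m, Wt (w3 κ) ω * (1 / m : ℝ) = Wt (w3 κ) ω := by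
        intro ω
        rw [Finset.sum_const, Finset.card_univ, Fintype.card_fin, nsmul_eq_mul]
        field_simp
      simp only [this]
      exact sum_Wt _ hw1
  have h4 : EE (w3 κ) (fun ω => ∑ i, N i ω ^ 4) ≤ κ * R + 3 * κ ^ 2 * (m * b) := by
    have e3 : (fun ω : Fin m × Fin b → Fin 3 => ∑ i, N i ω ^ 4) =
        fun ω => ∑ j, xs (small η P) ω j ^ 4 := by
      funext ω
      rw [Fintype.sum_prod_type]
      exact Finset.sum_congr rfl fun i _ => hN i ω
    rw [e3, EE_sum]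
    have h5 : ∀ j, EE (w3 κ) (fun ω => xs (small η P) ω j ^ 4) ≤
        κ * ∑ l, small η P j l ^ 4 + 3 * κ ^ 2 := by
      intro j
      have h6 := mom4 (w3 κ) th κ hw hw1 (w3_1 κ) (w3_2 κ) (w3_3 κ) (w3_4 κ)
        (fun l => small η P j l) univ
      refine le_trans h6 (add_le_add le_rfl ?_)
      have h7 : ∑ l, small η P j l ^ 2 ≤ 1 := by
        calc ∑ l, small η P j l ^ 2 ≤ ∑ l, P j l ^ 2 :=
              Finset.sum_le_sum fun l _ => small_sq_le η P j l
          _ = P j j := hP j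
          _ ≤ 1 := diag_le_one hP j
      have h8 : 0 ≤ ∑ l, small η P j l ^ 2 := Finset.sum_nonneg fun _ _ => sq_nonneg _
      have h9 : (∑ l, small η P j l ^ 2) ^ 2 ≤ 1 := by nlinarith
      have h10 : 0 ≤ 3 * κ ^ 2 := by positivity
      nlinarith
    calc ∑ j, EE (w3 κ) (fun ω => xs (small η P) ω j ^ 4)
        ≤ ∑ j : Fin m × Fin b, (κ * ∑ l, small η P j l ^ 4 + 3 * κ ^ 2) :=
          Finset.sum_le_sum fun j _ => h5 j
      _ = κ * (∑ j, ∑ l, small η P j l ^ 4) + 3 * κ ^ 2 * (m * b) := by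
          rw [Finset.sum_add_distrib, ← Finset.mul_sum]
          simp
          ring
      _ ≤ _ := by
          have := mul_le_mul_of_nonneg_left hR h0
          linarith
  calc (EE (w3 κ) (fun ω => ∑ i, N i ω)) ^ 4
      = m ^ 4 * ((1 / m : ℝ) * EE (w3 κ) (fun ω => ∑ i, N i ω)) ^ 4 := by
        rw [mul_pow, div_pow]; field_simp
    _ ≤ m ^ 4 * ((1 / m) * (κ * R + 3 * κ ^ 2 * (m * b))) := by
        refine mul_le_mul_of_nonneg_left (hpm.trans ?_) (by positivity)
        exact mul_le_mul_of_nonneg_left h4 (by positivity)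
    _ = _ := by field_simp

/-- indicator of the event that a large entry falls in the row `i` -/
noncomputable def big (η : ℝ) (P : Fin m × Fin b → Fin m × Fin b → ℝ) (i : Fin m)
    (ω : Fin m × Fin b → Fin 3) : ℝ :=
  open Classical in if ∃ l t, ω l ≠ 0 ∧ η ≤ P (i, t) l ^ 2 then 1 else 0

theorem big_01 (η : ℝ) (P : Fin m × Fin b → Fin m × Fin b → ℝ) (i : Fin m)
    (ω : Fin m × Fin b → Fin 3) : big η P i ω = 0 ∨ big η P i ω = 1 := by
  unfold big; split_ifs <;> simp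

theorem EE_big_le {κ : ℝ} (h0 : 0 ≤ κ) (h1 : κ ≤ 1) {P : Fin m × Fin b → Fin m × Fin b → ℝ}
    (hP : ∀ j, ∑ l, P j l ^ 2 = P j j) (η : ℝ) (hη : 0 < η) (i : Fin m) :
    EE (w3 κ) (big η P i) ≤ κ * b / η := by
  have hpt : ∀ ω, big η P i ω ≤ ∑ l, (∑ t, P (i, t) l ^ 2 / η) * th (ω l) ^ 2 := by
    intro ω
    unfold big
    split_ifs with h
    · obtain ⟨l, t, hl, ht⟩ := h
      have h2 : (1:ℝ) ≤ ∑ t, P (i, t) l ^ 2 / η := by
        calc (1:ℝ) ≤ P (i, t) l ^ 2 / η := by rw [le_div_iff₀ hη]; linarith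
          _ ≤ _ := Finset.single_le_sum (f := fun t => P (i, t) l ^ 2 / η)
            (fun _ _ => by positivity) (Finset.mem_univ t)
      calc (1:ℝ) ≤ (∑ t, P (i, t) l ^ 2 / η) * th (ω l) ^ 2 := by
            rw [th_sq_eq, if_neg hl, mul_one]; exact h2
        _ ≤ _ := Finset.single_le_sum (f := fun l => (∑ t, P (i, t) l ^ 2 / η) * th (ω l) ^ 2)
            (fun _ _ => by positivity) (Finset.mem_univ l)
    · exact Finset.sum_nonneg fun _ _ => by positivity
  refine le_trans (EE_mono _ (w3_nonneg h0 h1) _ _ hpt) ?_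
  rw [EE_sum]
  have h3 : ∀ l, EE (w3 κ) (fun ω : Fin m × Fin b → Fin 3 =>
      (∑ t, P (i, t) l ^ 2 / η) * th (ω l) ^ 2) = (∑ t, P (i, t) l ^ 2 / η) * κ := by
    intro l
    rw [EE_mul_left, EE_coord _ (w3_sum κ) l (fun a => th a ^ 2), w3_2]
  simp only [h3]
  rw [← Finset.sum_mul, Finset.sum_comm]
  have h4 : ∑ t, ∑ l, P (i, t) l ^ 2 / η ≤ b / η := by
    calc ∑ t, ∑ l, P (i, t) l ^ 2 / η = ∑ t, P (i, t) (i, t) / η := by
          refine Finset.sum_congr rfl fun t _ => ?_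
          rw [← Finset.sum_div, hP]
      _ ≤ ∑ _t : Fin b, 1 / η := Finset.sum_le_sum fun t _ =>
          div_le_div_of_nonneg_right (diag_le_one hP _) hη.le
      _ = b / η := by simp [div_eq_mul_inv]
  calc (∑ t, ∑ l, P (i, t) l ^ 2 / η) * κ ≤ b / η * κ := mul_le_mul_of_nonneg_right h4 h0
    _ = κ * b / η := by ring

/-- Off the large rows the vector coincides with its small part. -/
theorem xs_eq_small (η : ℝ) (P : Fin m × Fin b → Fin m × Fin b → ℝ) (i : Fin m)
    (ω : Fin m × Fin b → Fin 3) (h : big η P i ω = 0) (t : Fin b) :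
    xs P ω (i, t) = xs (small η P) ω (i, t) := by
  have h1 : ∀ l t, ω l ≠ 0 → P (i, t) l ^ 2 < η := by
    intro l t hl
    by_contra hcon
    unfold big at h
    rw [if_pos ⟨l, t, hl, not_lt.1 hcon⟩] at h
    norm_num at h
  unfold xs
  refine Finset.sum_congr rfl fun l _ => ?_
  by_cases hl : ω l = 0
  · rw [hl]; simp [th]
  · have := h1 l t hl
    unfold small
    rw [if_pos this]

end Run7.h35.TT
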