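import Pool.Agent.Run7.h35.TT.CoreB

/-!
# The contradiction
-/

set_option autoImplicit false

open Finset

namespace Run7.h35.TT

variable {m b : ℕ}

/-- Truncation of a vector at norm `s`. -/
noncomputable def tr {X : Type*} [NormedAddCommGroup X] [NormedSpace ℝ X] (s : ℝ) (x : X) : X :=
  open Classical in if ‖x‖ ≤ s then x else (s / ‖x‖) • x

theorem tr_of_le {X : Type*} [NormedAddCommGroup X] [NormedSpace ℝ X] {s : ℝ} {x : X}
    (h : ‖x‖ ≤ s) : tr s x = x := by unfold tr; rw [if_pos h]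

theorem norm_tr_of_lt {X : Type*} [NormedAddCommGroup X] [NormedSpace ℝ X] {s : ℝ} {x : X}
    (hs : 0 ≤ s) (h : s < ‖x‖) : ‖tr s x‖ = s := by
  unfold tr
  rw [if_neg (not_le.2 h), norm_smul, Real.norm_eq_abs, abs_of_nonneg (by positivity),
    div_mul_cancel₀ _ (by linarith : ‖x‖ ≠ 0)]

theorem norm_tr_le {X : Type*} [NormedAddCommGroup X] [NormedSpace ℝ X] {s : ℝ} {x : X}
    (hs : 0 ≤ s) : ‖tr s x‖ ≤ s := by
  by_cases h : ‖x‖ ≤ s
  · rw [tr_of_le h]; exact h
  · rw [norm_tr_of_lt hs (not_le.1 h)]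

theorem tr_mem {X : Type*} [NormedAddCommGroup X] [NormedSpace ℝ X] {s : ℝ} {x : X}
    (E : Submodule ℝ X) (h : x ∈ E) : tr s x ∈ E := by
  unfold tr
  split_ifs
  · exact h
  · exact E.smul_mem _ h

theorem semi_tr_le {X : Type*} [NormedAddCommGroup X] [NormedSpace ℝ X] {s : ℝ} {x : X}
    (hs : 0 ≤ s) (ν : Seminorm ℝ X) : ν (tr s x) ≤ ν x := by
  by_cases h : ‖x‖ ≤ s
  · rw [tr_of_le h]
  · have h1 := not_le.1 h
    have h2 : 0 < ‖x‖ := by linarith
    unfold tr
    rw [if_neg h, map_smul_eq_mul, Real.norm_eq_abs, abs_of_nonneg (by positivity)]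
    have h3 : s / ‖x‖ ≤ 1 := by rw [div_le_one h2]; exact h1.le
    calc s / ‖x‖ * ν x ≤ 1 * ν x := mul_le_mul_of_nonneg_right h3 (apply_nonneg _ _)
      _ = ν x := one_mul _

/-- The main estimate. -/
theorem main {X : Type*} [NormedAddCommGroup X] [NormedSpace ℝ X]
    (mk : (Fin m × Fin b → ℝ) → X) (ν : Fin m → Seminorm ℝ X)
    (hν : ∀ x, ∑ i, ν i x = ‖x‖) (hmk : ∀ f i, ν i (mk f) ^ 4 = ∑ t, f (i, t) ^ 4)
    (E : Submodule ℝ X) {P : Fin m × Fin b → Fin m × Fin b → ℝ}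
    (hPE : ∀ c : Fin m × Fin b → ℝ, mk (fun j => ∑ l, c l * P j l) ∈ E)
    (hP : ∀ j, ∑ l, P j l ^ 2 = P j j) (lam : ℝ) (hl0 : 0 < lam) (hl1 : lam ≤ 1)
    (htr : lam * (m * b) ≤ ∑ j, P j j) (T : ℝ) (hT1 : 1 ≤ T) (hT : TypeTwoLe E T)
    (r2 K : ℕ) (hK : 1 ≤ K) (hbK : b = K) (hr2 : 16 * T ^ 2 / (lam ^ 2 / 128) ^ 2 < r2)
    (hK2 : (4 * r2 + 3) / (K : ℝ) ≤ ((lam ^ 2 / 128) * lam) ^ 4 / (2 ^ 26 * T ^ 4))
    (hm : m = 2 * r2 * K ^ K) : False := by
  classical
  set τ : ℝ := lam ^ 2 / 128 with hτ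
  have hτ0 : 0 < τ := by positivity
  have hK0 : (0:ℝ) < K := by exact_mod_cast hK
  have hr20 : (0:ℝ) < r2 := lt_of_le_of_lt (by positivity) hr2
  have hr2' : 0 < r2 := by exact_mod_cast hr20
  have hT0 : 0 < T := by linarith
  obtain ⟨l, hl, hlK, hRR⟩ := exists_scale hP K hK
  set η : ℝ := ((K : ℝ)⁻¹) ^ l with hη
  have hη0 : 0 < η := by positivity
  have hη1 : η ≤ 1 := by
    rw [hη]
    exact pow_le_one₀ (by positivity) (inv_le_one_of_one_le₀ (by exact_mod_cast hK))
  have hηK : η * K ^ l = 1 := by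
    rw [hη, inv_pow, inv_mul_cancel₀ (by positivity)]
  -- parameters
  set ρ : ℝ := η / (2 * r2) with hρ
  have hρ0 : 0 < ρ := by positivity
  set κ : ℝ := ρ / b with hκ
  have hb0 : (0:ℝ) < b := by rw [hbK]; exact hK0
  have hκ0 : 0 < κ := by positivity
  have hκb : κ * b = ρ := by rw [hκ]; field_simp
  have hm0' : 0 < m := by rw [hm]; positivity
  have hm0 : (0:ℝ) < m := by exact_mod_cast hm0'
  have hmR : (m : ℝ) = 2 * r2 * K ^ K := by rw [hm]; push_cast; ring
  -- `r1`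
  set r1 : ℕ := r2 * K ^ l with hr1
  have hr1R : (r1 : ℝ) = r2 * K ^ l := by rw [hr1]; push_cast; ring
  have hr1ρ : (r1 : ℝ) * ρ = 1 / 2 := by
    rw [hr1R, hρ]
    have : (r2 : ℝ) * K ^ l * (η / (2 * r2)) = (η * K ^ l) / 2 := by field_simp
    rw [this, hηK]
  have hr1' : 1 ≤ r1 := by
    rw [hr1]; exact Nat.one_le_iff_ne_zero.2 (by positivity)
  have hr10 : (0:ℝ) < r1 := by exact_mod_cast (by omega : 0 < r1)
  -- `k`
  set k : ℝ := ρ * m with hk
  have hk1 : 1 ≤ k := by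
    have h1 : (1:ℝ) ≤ K := by exact_mod_cast hK
    have h2 : (K:ℝ) ^ l ≤ K ^ K := pow_le_pow_right₀ h1 hlK
    have h3 : k = η * K ^ K := by
      rw [hk, hρ, hmR]; field_simp
    rw [h3, ← hηK]
    exact mul_le_mul_of_nonneg_left h2 hη0.le
  have hk0 : 0 < k := by linarith
  have hκn : κ * (m * b) = k := by
    rw [hk, ← hκb]; ring
  have hρ1 : ρ ≤ lam / 4 := by
    have h1 : ρ ≤ 1 / (2 * r2) := by
      rw [hρ]; exact div_le_div_of_nonneg_right hη1 (by positivity)
    have h2 : 2 / lam ≤ r2 := by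
      refine le_trans ?_ hr2.le
      rw [hτ, div_le_div_iff₀ hl0 (by positivity)]
      have h3 : lam ^ 4 ≤ lam := by
        calc lam ^ 4 = lam * lam ^ 3 := by ring
          _ ≤ lam * 1 := mul_le_mul_of_nonneg_left (pow_le_one₀ hl0.le hl1) hl0.le
          _ = lam := mul_one _
      have h4 : (1:ℝ) ≤ T ^ 2 := one_le_pow₀ hT1
      nlinarith
    have h3 : 1 / (2 * (r2 : ℝ)) ≤ lam / 4 := by
      rw [div_le_div_iff₀ (by positivity) (by norm_num)]
      rw [div_le_iff₀ hl0] at h2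
      nlinarith
    linarith
  have hκ1 : κ ≤ 1 := by
    have h1 : (1:ℝ) ≤ b := by rw [hbK]; exact_mod_cast hK
    have h2 : κ ≤ ρ := by rw [hκ]; exact div_le_self hρ0.le h1
    linarith
  -- the random vector
  set x : (Fin m × Fin b → Fin 3) → X := fun ω => mk (xs P ω) with hx
  have hxE : ∀ ω, x ω ∈ E := fun ω => hPE (fun l => th (ω l))
  have hw := w3_nonneg hκ0.le hκ1
  have hw1 := w3_sum κ
  have hW := Wt_nonneg (J := Fin m × Fin b) (w3 κ) hw
  have hW1 := sum_Wt (J := Fin m × Fin b) (w3 κ) hw1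
  have hent : ∀ (f : Fin m × Fin b → ℝ) i t, |f (i, t)| ≤ ν i (mk f) := by
    intro f i t
    have h1 : |f (i, t)| ^ 4 ≤ ν i (mk f) ^ 4 := by
      rw [hmk]
      calc |f (i, t)| ^ 4 = f (i, t) ^ 4 := by
            rw [← abs_pow, abs_of_nonneg (by positivity)]
        _ ≤ _ := Finset.single_le_sum (f := fun t => f (i, t) ^ 4) (fun _ _ => by positivity)
            (Finset.mem_univ t)
    exact le_of_pow_le_pow_left₀ (by norm_num) (apply_nonneg _ _) h1
  -- threshold
  set s : ℝ := lam * k * Real.sqrt r1 / (32 * T) with hs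
  have hsr1 : 0 < Real.sqrt r1 := Real.sqrt_pos.2 hr10
  have hs0 : 0 < s := by positivity
  set u : (Fin m × Fin b → Fin 3) → ℝ := fun ω => if ‖x ω‖ ≤ s then 0 else 1 with hu
  have hu01 : ∀ ω, u ω = 0 ∨ u ω = 1 := by
    intro ω; simp only [hu]; split_ifs <;> simp
  -- the number of hits
  set H : (Fin m × Fin b → Fin 3) → ℝ := fun ω => ∑ i, hit i ω * min (ν i (x ω)) 1 with hH
  have hhit0 : ∀ i (ω : Fin m × Fin b → Fin 3), 0 ≤ hit i ω := fun i ω => by
    rcases hit_01 i ω with h | h <;> rw [h]; norm_num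
  have hH0 : ∀ ω, 0 ≤ H ω := fun ω => Finset.sum_nonneg fun i _ =>
    mul_nonneg (hhit0 i ω) (le_min (apply_nonneg _ _) zero_le_one)
  have hHlow : k * (lam / 4) ≤ EE (w3 κ) H := by
    have h1 := hit_lower hκ0.le hκ1 hP (fun i ω => ν i (x ω)) (fun i t ω => hent _ i t)
      (fun i ω => apply_nonneg _ _)
    refine le_trans ?_ h1
    have h2 : κ ^ 2 * (m * b * b) = k * ρ := by
      rw [← hκn, ← hκb]; ring
    have h3 : κ / 2 * (lam * (m * b)) ≤ κ / 2 * ∑ j, P j j :=
      mul_le_mul_of_nonneg_left htr (by positivity)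
    have h4 : κ / 2 * (lam * (m * b)) = k * (lam / 2) := by rw [← hκn]; ring
    rw [h2]
    nlinarith
  have hHsq : EE (w3 κ) (fun ω => H ω ^ 2) ≤ 2 * k ^ 2 := by
    have h1 : ∀ ω, H ω ^ 2 ≤ (∑ j, th (ω j) ^ 2) ^ 2 := by
      intro ω
      refine pow_le_pow_left₀ (hH0 ω) ?_ 2
      rw [Fintype.sum_prod_type]
      refine Finset.sum_le_sum fun i _ => ?_
      calc hit i ω * min (ν i (x ω)) 1 ≤ hit i ω * 1 :=
            mul_le_mul_of_nonneg_left (min_le_right _ _) (hhit0 i ω)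
        _ = hit i ω := mul_one _
        _ ≤ _ := hit_le i ω
    refine le_trans (EE_mono _ hw _ _ h1) (le_trans (count_sq hκ0.le hκ1) ?_)
    rw [hκn]
    nlinarith
  -- the two cases
  rcases le_or_gt (EE (w3 κ) u) τ with hcase | hcase
  · -- norm small with large probability
    have hD := lemD E T hT0.le hT ν (fun y => (hν y).le) (Wt (J := Fin m × Fin b) (w3 κ)) hW hW1
      (fun ω => tr s (x ω)) (fun ω => tr_mem E (hxE ω)) s hs0.le (fun ω => norm_tr_le hs0.le)
      (fun i ω => hit i ω) (fun i ω => hit_01 i ω) ρ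
      (fun i => (EE_hit_le hκ0.le hκ1 i).trans hκb.le) r1 hr1' hr1ρ.le
    have h1 : EE (w3 κ) (fun ω => H ω - (lam / 16 / (2 * k) * H ω ^ 2 + k / (2 * (lam / 16)) * u ω)) ≤
        ∑ i, ∑ ω, Wt (w3 κ) ω * (hit i ω * ν i (tr s (x ω))) := by
      rw [Finset.sum_comm]
      unfold EE
      refine Finset.sum_le_sum fun ω _ => ?_
      rw [← Finset.mul_sum]
      refine mul_le_mul_of_nonneg_left ?_ (hW ω)
      beta_reduce
      rcases hu01 ω with h2 | h2
      · have h3 : ‖x ω‖ ≤ s := by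
          by_contra hcon
          simp only [hu, if_neg hcon] at h2
          norm_num at h2
        rw [h2, tr_of_le h3]
        have h4 : H ω ≤ ∑ i, hit i ω * ν i (x ω) := Finset.sum_le_sum fun i _ =>
          mul_le_mul_of_nonneg_left (min_le_left _ _) (hhit0 i ω)
        have h5 : 0 ≤ lam / 16 / (2 * k) * H ω ^ 2 := by positivity
        linarith
      · rw [h2]
        have h4 : 0 ≤ ∑ i, hit i ω * ν i (tr s (x ω)) := Finset.sum_nonneg fun i _ =>
          mul_nonneg (hhit0 i ω) (apply_nonneg _ _)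
        have h5 : H ω ≤ lam / 16 / (2 * k) * H ω ^ 2 + k / (2 * (lam / 16)) * 1 := by
          have h6 : lam / 16 / (2 * k) * H ω ^ 2 + k / (2 * (lam / 16)) * 1 - H ω =
              ((lam / 16) * H ω - k) ^ 2 / (2 * k * (lam / 16)) := by
            field_simp
            ring
          have h7 : 0 ≤ ((lam / 16) * H ω - k) ^ 2 / (2 * k * (lam / 16)) := by positivity
          linarith
        linarith
    rw [EE_sub, EE_add, EE_mul_left, EE_mul_left] at h1
    have h2 : lam / 16 / (2 * k) * EE (w3 κ) (fun ω => H ω ^ 2) ≤ lam / 16 * k := by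
      calc lam / 16 / (2 * k) * EE (w3 κ) (fun ω => H ω ^ 2) ≤ lam / 16 / (2 * k) * (2 * k ^ 2) :=
            mul_le_mul_of_nonneg_left hHsq (by positivity)
        _ = lam / 16 * k := by field_simp
    have h3 : k / (2 * (lam / 16)) * EE (w3 κ) u ≤ lam / 16 * k := by
      calc k / (2 * (lam / 16)) * EE (w3 κ) u ≤ k / (2 * (lam / 16)) * τ :=
            mul_le_mul_of_nonneg_left hcase (by positivity)
        _ = lam / 16 * k := by rw [hτ]; field_simp; ring
    have h4 : 2 * T * s / Real.sqrt r1 = lam * k / 16 := by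
      rw [hs]; field_simp; ring
    have h5 : 0 < lam * k := by positivity
    have h6 : EE (w3 κ) (fun ω => H ω) = EE (w3 κ) H := rfl
    linarith
  · -- norm large with positive probability
    have hηb : κ * b / η ≤ 1 / (2 * r2) := by
      rw [hκb, hρ]
      apply le_of_eq
      field_simp
    have hD := lemD E T hT0.le hT ν (fun y => (hν y).le) (Wt (J := Fin m × Fin b) (w3 κ)) hW hW1
      (fun ω => tr s (x ω)) (fun ω => tr_mem E (hxE ω)) s hs0.le (fun ω => norm_tr_le hs0.le)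
      (fun i ω => big η P i ω) (fun i ω => big_01 η P i ω) (1 / (2 * r2))
      (fun i => (EE_big_le hκ0.le hκ1 hP η hη0 i).trans hηb) r2 hr2' (by
        apply le_of_eq; field_simp)
    set y : (Fin m × Fin b → Fin 3) → X := fun ω => mk (xs (small η P) ω) with hy
    set Z := EE (w3 κ) (fun ω => ∑ i, ν i (y ω)) with hZ
    have h1 : EE (w3 κ) (fun ω => s * u ω - ∑ i, ν i (y ω)) ≤
        ∑ i, ∑ ω, Wt (w3 κ) ω * (big η P i ω * ν i (tr s (x ω))) := by
      rw [Finset.sum_comm]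
      unfold EE
      refine Finset.sum_le_sum fun ω _ => ?_
      rw [← Finset.mul_sum]
      refine mul_le_mul_of_nonneg_left ?_ (hW ω)
      have h2 : s * u ω ≤ ∑ i, ν i (tr s (x ω)) := by
        rw [hν]
        rcases hu01 ω with h2 | h2
        · rw [h2, mul_zero]; exact norm_nonneg _
        · have h3 : s < ‖x ω‖ := by
            by_contra hcon
            simp only [hu, if_pos (not_lt.1 hcon)] at h2
            norm_num at h2
          rw [h2, norm_tr_of_lt hs0.le h3, mul_one]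
      have h3 : ∑ i, ν i (tr s (x ω)) ≤ ∑ i, (big η P i ω * ν i (tr s (x ω)) + ν i (y ω)) := by
        refine Finset.sum_le_sum fun i _ => ?_
        rcases big_01 η P i ω with h4 | h4
        · rw [h4, zero_mul, zero_add]
          refine (semi_tr_le hs0.le (ν i)).trans (le_of_eq ?_)
          have h5 : ν i (x ω) ^ 4 = ν i (y ω) ^ 4 := by
            simp only [hx, hy]
            rw [hmk, hmk]
            exact Finset.sum_congr rfl fun t _ => by rw [xs_eq_small η P i ω h4 t]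
          exact (pow_left_inj₀ (apply_nonneg _ _) (apply_nonneg _ _) (by norm_num)).1 h5
        · rw [h4, one_mul]
          have : 0 ≤ ν i (y ω) := apply_nonneg _ _
          linarith
      rw [Finset.sum_add_distrib] at h3
      linarith
    rw [EE_sub, EE_mul_left] at h1
    have hZ4 : Z ^ 4 ≤ (τ * s / 2) ^ 4 := by
      have h2 := small_bound hκ0.le hκ1 hm0' hP η _ hRR (fun i ω => ν i (y ω))
        (fun i ω => apply_nonneg _ _) (fun i ω => hmk _ i)
      refine le_trans h2 ?_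
      -- left side
      have h3 : (m : ℝ) ^ 3 * (κ * (2 * η * (m * b) / K) + 3 * κ ^ 2 * (m * b)) =
          m ^ 4 * ρ ^ 2 * ((4 * r2 + 3) / K) := by
        have h4 : η = 2 * r2 * ρ := by rw [hρ]; field_simp
        have h5 : κ = ρ / K := by rw [hκ, hbK]
        rw [h5, h4, hbK]
        field_simp
        ring
      have h6 : Real.sqrt r1 ^ 4 = (r1 : ℝ) ^ 2 := by
        rw [show (4:ℕ) = 2 * 2 from rfl, pow_mul, Real.sq_sqrt hr10.le]
      have h7 : (τ * s / 2) ^ 4 = m ^ 4 * ρ ^ 2 * ((τ * lam) ^ 4 / (2 ^ 26 * T ^ 4)) := by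
        have h8 : (τ * s / 2) ^ 4 = (τ * lam) ^ 4 * (k ^ 4 * Real.sqrt r1 ^ 4) / (2 ^ 24 * T ^ 4) := by
          rw [hs]; field_simp; ring
        have h9 : k ^ 4 * (r1:ℝ) ^ 2 = m ^ 4 * ρ ^ 2 * (1 / 4) := by
          calc k ^ 4 * (r1:ℝ) ^ 2 = m ^ 4 * ρ ^ 2 * ((r1:ℝ) * ρ) ^ 2 := by rw [hk]; ring
            _ = _ := by rw [hr1ρ]; norm_num
        rw [h8, h6, h9]
        field_simp
        ring
      rw [h3, h7]
      exact mul_le_mul_of_nonneg_left hK2 (by positivity)
    have hZ2 : Z ≤ τ * s / 2 := le_of_pow_le_pow_left₀ (by norm_num) (by positivity) hZ4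
    have h2 : s * τ < s * EE (w3 κ) u := mul_lt_mul_of_pos_left hcase hs0
    have h3 : EE (w3 κ) (fun ω => u ω) = EE (w3 κ) u := rfl
    rw [h3] at h1
    have h4 : τ * s / 2 < 2 * T * s / Real.sqrt r2 := by
      linarith
    have h5 : 0 < Real.sqrt r2 := Real.sqrt_pos.2 hr20
    rw [lt_div_iff₀ h5] at h4
    have h6 : τ * Real.sqrt r2 < 4 * T := by
      have h7 : s * (τ * Real.sqrt r2) < s * (4 * T) := by linarith
      exact lt_of_mul_lt_mul_left h7 hs0.le
    have h8 : (τ * Real.sqrt r2) ^ 2 < (4 * T) ^ 2 := by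
      exact pow_lt_pow_left₀ h6 (by positivity) (by norm_num)
    rw [mul_pow, Real.sq_sqrt hr20.le] at h8
    rw [div_lt_iff₀ (by positivity)] at hr2
    nlinarith

end Run7.h35.TT
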