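import Pool.Agent.Run7.h35.TT.Space

/-!
# The cotype 4 constant of `ℓ₁^m(ℓ₄^b) ⊕ ℓ_∞^16`
-/

set_option autoImplicit false

open Finset Module
open scoped ENNReal

namespace Run7.h35.TT

variable {m b : ℕ}

theorem signAvg_nonneg {V : Type*} [NormedAddCommGroup V] [NormedSpace ℝ V] {r : ℕ}
    (x : Fin r → V) : 0 ≤ signAvg x := Real.sqrt_nonneg _

theorem signAvg_sq {V : Type*} [NormedAddCommGroup V] [NormedSpace ℝ V] {r : ℕ}
    (x : Fin r → V) :
    signAvg x ^ 2 = (∑ ε : Fin r → Bool, ‖∑ i, sgn (ε i) • x i‖ ^ 2) / 2 ^ r :=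
  Real.sq_sqrt (div_nonneg (Finset.sum_nonneg fun _ _ => sq_nonneg _) (by positivity))

theorem norm4_mono {ι : Type*} [Fintype ι] (x y : PiLp 4 (fun _ : ι => ℝ))
    (h : ∑ t, x t ^ 4 ≤ ∑ t, y t ^ 4) : ‖x‖ ≤ ‖y‖ := by
  rw [← norm4_pow, ← norm4_pow] at h
  exact le_of_pow_le_pow_left₀ (by norm_num) (norm_nonneg _) h

theorem row_khin {r : ℕ} (x : Fin r → PiLp 4 (fun _ : Fin b => ℝ)) :
    ‖(WithLp.toLp 4 (fun i => ‖x i‖) : PiLp 4 (fun _ : Fin r => ℝ))‖ ≤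
      2 * ((∑ ε : Fin r → Bool, ‖∑ i, sgn (ε i) • x i‖) / 2 ^ r) := by
  set v : (Fin r → Bool) → PiLp 4 (fun _ : Fin b => ℝ) := fun ε =>
    WithLp.toLp 4 (fun t => |(∑ i, sgn (ε i) • x i) t|) with hv
  have hvn : ∀ ε, ‖v ε‖ = ‖∑ i, sgn (ε i) • x i‖ := by
    intro ε
    apply le_antisymm
    · refine norm4_mono _ _ (Finset.sum_le_sum fun t _ => ?_)
      simp only [hv]
      rw [← abs_pow, abs_of_nonneg (by positivity)]
    · refine norm4_mono _ _ (Finset.sum_le_sum fun t _ => ?_)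
      simp only [hv]
      rw [← abs_pow, abs_of_nonneg (by positivity)]
  have h1 : ‖(∑ ε, v ε : PiLp 4 (fun _ : Fin b => ℝ))‖ ≤ ∑ ε, ‖v ε‖ := norm_sum_le _ _
  have h2 : ‖(WithLp.toLp 4 (fun i => ‖x i‖) : PiLp 4 (fun _ : Fin r => ℝ))‖ ≤
      ‖((2 / 2 ^ r : ℝ) • ∑ ε, v ε : PiLp 4 (fun _ : Fin b => ℝ))‖ := by
    have h3 : ‖(WithLp.toLp 4 (fun i => ‖x i‖) : PiLp 4 (fun _ : Fin r => ℝ))‖ ^ 4 ≤
        ‖((2 / 2 ^ r : ℝ) • ∑ ε, v ε : PiLp 4 (fun _ : Fin b => ℝ))‖ ^ 4 := by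
      rw [norm4_pow, norm4_pow]
      have h4 : ∀ i, ‖x i‖ ^ 4 = ∑ t, (x i) t ^ 4 := fun i => norm4_pow _
      calc ∑ i, ‖x i‖ ^ 4 = ∑ t, ∑ i, (x i) t ^ 4 := by
            simp only [h4]
            exact Finset.sum_comm
        _ ≤ ∑ t, ((2 / 2 ^ r : ℝ) • ∑ ε, v ε : PiLp 4 (fun _ : Fin b => ℝ)) t ^ 4 := by
            refine Finset.sum_le_sum fun t _ => ?_
            have h5 := khin (fun i => (x i) t)
            have h6 : ((2 / 2 ^ r : ℝ) • ∑ ε, v ε : PiLp 4 (fun _ : Fin b => ℝ)) t =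
                2 * ((∑ ε : Fin r → Bool, |∑ i, sgn (ε i) * (x i) t|) / 2 ^ r) := by
              rw [PiLp.smul_apply]
              have : (∑ ε, v ε : PiLp 4 (fun _ : Fin b => ℝ)) t = ∑ ε, (v ε) t := by
                simp [WithLp.ofLp_sum, Finset.sum_apply]
              rw [this]
              simp only [hv, smul_eq_mul]
              have h7 : ∀ ε : Fin r → Bool, (∑ i, sgn (ε i) • x i : PiLp 4 (fun _ : Fin b => ℝ)) t =
                  ∑ i, sgn (ε i) * (x i) t := by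
                intro ε
                simp [WithLp.ofLp_sum, Finset.sum_apply]
              simp only [h7]
              ring
            rw [h6]
            have h8 : Real.sqrt (∑ i, (x i) t ^ 2) ≤
                2 * ((∑ ε : Fin r → Bool, |∑ i, sgn (ε i) * (x i) t|) / 2 ^ r) := by linarith
            have h9 : ∑ i, (x i) t ^ 4 ≤ Real.sqrt (∑ i, (x i) t ^ 2) ^ 4 := by
              have e1 : Real.sqrt (∑ i, (x i) t ^ 2) ^ 4 = (∑ i, (x i) t ^ 2) ^ 2 := by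
                rw [show (4:ℕ) = 2 * 2 from rfl, pow_mul,
                  Real.sq_sqrt (Finset.sum_nonneg fun _ _ => sq_nonneg _)]
              rw [e1]
              have e2 : ∀ i, (x i) t ^ 4 = ((x i) t ^ 2) ^ 2 := fun i => by ring
              simp only [e2]
              exact sum_sq_le fun i => sq_nonneg _
            exact h9.trans (pow_le_pow_left₀ (Real.sqrt_nonneg _) h8 4)
    exact le_of_pow_le_pow_left₀ (by norm_num) (norm_nonneg _) h3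
  refine h2.trans ?_
  rw [norm_smul, Real.norm_eq_abs, abs_of_nonneg (by positivity)]
  calc (2 / 2 ^ r : ℝ) * ‖(∑ ε, v ε : PiLp 4 (fun _ : Fin b => ℝ))‖ ≤
      (2 / 2 ^ r : ℝ) * ∑ ε, ‖v ε‖ := mul_le_mul_of_nonneg_left h1 (by positivity)
    _ = _ := by simp only [hvn]; ring

theorem cotY {r : ℕ} (x : Fin r → Y m b) : ∑ i, ‖x i‖ ^ 4 ≤ 16 * signAvg x ^ 4 := by
  set g : Fin m → PiLp 4 (fun _ : Fin r => ℝ) := fun k => WithLp.toLp 4 (fun i => ‖x i k‖) with hg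
  have h1 : ∑ i, ‖x i‖ ^ 4 = ‖(∑ k, g k : PiLp 4 (fun _ : Fin r => ℝ))‖ ^ 4 := by
    rw [norm4_pow]
    refine Finset.sum_congr rfl fun i _ => ?_
    congr 1
    rw [PiLp.norm_eq_of_L1]
    simp [hg, WithLp.ofLp_sum, Finset.sum_apply]
  have h2 : ‖(∑ k, g k : PiLp 4 (fun _ : Fin r => ℝ))‖ ≤ 2 * signAvg x := by
    calc ‖(∑ k, g k : PiLp 4 (fun _ : Fin r => ℝ))‖ ≤ ∑ k, ‖g k‖ := norm_sum_le _ _
      _ ≤ ∑ k, 2 * ((∑ ε : Fin r → Bool, ‖∑ i, sgn (ε i) • x i k‖) / 2 ^ r) :=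
          Finset.sum_le_sum fun k _ => row_khin fun i => x i k
      _ = 2 * ((∑ ε : Fin r → Bool, ‖∑ i, sgn (ε i) • x i‖) / 2 ^ r) := by
          rw [← Finset.mul_sum, ← Finset.sum_div, Finset.sum_comm]
          congr 2
          refine Finset.sum_congr rfl fun ε _ => ?_
          rw [PiLp.norm_eq_of_L1]
          refine Finset.sum_congr rfl fun k _ => ?_
          congr 1
          simp [WithLp.ofLp_sum, Finset.sum_apply]
      _ ≤ 2 * signAvg x := by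
          have := avg_le_signAvg x
          linarith
  rw [h1]
  calc ‖(∑ k, g k : PiLp 4 (fun _ : Fin r => ℝ))‖ ^ 4 ≤ (2 * signAvg x) ^ 4 :=
        pow_le_pow_left₀ (norm_nonneg _) h2 4
    _ = _ := by ring

theorem cotZ {r : ℕ} (z : Fin r → (Fin 16 → ℝ)) : ∑ i, ‖z i‖ ^ 4 ≤ 16 * signAvg z ^ 4 := by
  have h1 : ∀ i, ‖z i‖ ^ 4 ≤ ∑ t, (z i) t ^ 4 := by
    intro i
    rw [← norm4_pow (WithLp.toLp 4 (z i) : PiLp 4 (fun _ : Fin 16 => ℝ))]
    refine pow_le_pow_left₀ (norm_nonneg _) ?_ 4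
    rw [pi_norm_le_iff_of_nonneg (norm_nonneg _)]
    intro t
    have h2 : ‖(z i) t‖ ^ 4 ≤ ‖(WithLp.toLp 4 (z i) : PiLp 4 (fun _ : Fin 16 => ℝ))‖ ^ 4 := by
      rw [norm4_pow, Real.norm_eq_abs, ← abs_pow, abs_of_nonneg (by positivity)]
      exact Finset.single_le_sum (f := fun t => (z i) t ^ 4) (fun _ _ => by positivity)
        (Finset.mem_univ t)
    exact le_of_pow_le_pow_left₀ (by norm_num) (norm_nonneg _) h2
  have h2 : ∀ t : Fin 16, ∑ i, (z i) t ^ 4 ≤ signAvg z ^ 4 := by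
    intro t
    have h3 : ∑ i, (z i) t ^ 2 ≤ signAvg z ^ 2 := by
      rw [signAvg_sq, ← (sign_mom (fun i => (z i) t)).1]
      refine div_le_div_of_nonneg_right (Finset.sum_le_sum fun ε _ => ?_) (by positivity)
      have h4 : ∑ i, sgn (ε i) * (z i) t = (∑ i, sgn (ε i) • z i) t := by
        simp [Finset.sum_apply]
      rw [h4, ← sq_abs]
      exact pow_le_pow_left₀ (abs_nonneg _) (norm_le_pi_norm (∑ i, sgn (ε i) • z i) t) 2
    have e2 : ∀ i, (z i) t ^ 4 = ((z i) t ^ 2) ^ 2 := fun i => by ring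
    simp only [e2]
    calc ∑ i, ((z i) t ^ 2) ^ 2 ≤ (∑ i, (z i) t ^ 2) ^ 2 := sum_sq_le fun i => sq_nonneg _
      _ ≤ (signAvg z ^ 2) ^ 2 :=
          pow_le_pow_left₀ (Finset.sum_nonneg fun _ _ => sq_nonneg _) h3 2
      _ = signAvg z ^ 4 := by ring
  calc ∑ i, ‖z i‖ ^ 4 ≤ ∑ i, ∑ t, (z i) t ^ 4 := Finset.sum_le_sum fun i _ => h1 i
    _ = ∑ t, ∑ i, (z i) t ^ 4 := Finset.sum_comm
    _ ≤ ∑ _t : Fin 16, signAvg z ^ 4 := Finset.sum_le_sum fun t _ => h2 t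
    _ = 16 * signAvg z ^ 4 := by simp

theorem normX_pow (x : X m b) : ‖x‖ ^ 4 = ‖x.fst‖ ^ 4 + ‖x.snd‖ ^ 4 := by
  rw [WithLp.prod_norm_eq_of_nat 4 (by norm_num)]
  have h0 : 0 ≤ ‖x.fst‖ ^ 4 + ‖x.snd‖ ^ 4 := by positivity
  rw [← Real.rpow_natCast, ← Real.rpow_mul h0]
  norm_num

theorem signAvg_X {r : ℕ} (x : Fin r → X m b) :
    signAvg (fun i => (x i).fst) ^ 4 + signAvg (fun i => (x i).snd) ^ 4 ≤ signAvg x ^ 4 := by
  have e4 : ∀ {V : Type} [NormedAddCommGroup V] [NormedSpace ℝ V] (y : Fin r → V),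
      signAvg y ^ 4 = (signAvg y ^ 2) ^ 2 := fun y => by ring
  rw [e4, e4, e4, signAvg_sq, signAvg_sq, signAvg_sq]
  set A : (Fin r → Bool) → ℝ := fun ε => ‖∑ i, sgn (ε i) • (x i).fst‖ ^ 2 with hA
  set B : (Fin r → Bool) → ℝ := fun ε => ‖∑ i, sgn (ε i) • (x i).snd‖ ^ 2 with hB
  set R : (Fin r → Bool) → ℝ := fun ε => ‖∑ i, sgn (ε i) • x i‖ ^ 2 with hR
  have hfst : ∀ ε : Fin r → Bool, (∑ i, sgn (ε i) • x i).fst = ∑ i, sgn (ε i) • (x i).fst := by
    intro ε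
    exact map_sum (WithLp.fstL 4 ℝ (Y m b) (Fin 16 → ℝ)) _ _ |>.trans
      (Finset.sum_congr rfl fun i _ => map_smul (WithLp.fstL 4 ℝ (Y m b) (Fin 16 → ℝ)) _ _)
  have hsnd : ∀ ε : Fin r → Bool, (∑ i, sgn (ε i) • x i).snd = ∑ i, sgn (ε i) • (x i).snd := by
    intro ε
    exact map_sum (WithLp.sndL 4 ℝ (Y m b) (Fin 16 → ℝ)) _ _ |>.trans
      (Finset.sum_congr rfl fun i _ => map_smul (WithLp.sndL 4 ℝ (Y m b) (Fin 16 → ℝ)) _ _)
  have hRAB : ∀ ε, R ε ^ 2 = A ε ^ 2 + B ε ^ 2 := by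
    intro ε
    simp only [hR, hA, hB]
    rw [← pow_mul, ← pow_mul, ← pow_mul, normX_pow, hfst, hsnd]
  have hR0 : ∀ ε, 0 ≤ R ε := fun ε => sq_nonneg _
  have hA0 : ∀ ε, 0 ≤ A ε := fun ε => sq_nonneg _
  have hB0 : ∀ ε, 0 ≤ B ε := fun ε => sq_nonneg _
  set a := (∑ ε, A ε) / 2 ^ r
  set c := (∑ ε, B ε) / 2 ^ r
  set d := (∑ ε, R ε) / 2 ^ r
  have ha0 : 0 ≤ a := div_nonneg (Finset.sum_nonneg fun _ _ => hA0 _) (by positivity)
  have hc0 : 0 ≤ c := div_nonneg (Finset.sum_nonneg fun _ _ => hB0 _) (by positivity)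
  have hd0 : 0 ≤ d := div_nonneg (Finset.sum_nonneg fun _ _ => hR0 _) (by positivity)
  set q := Real.sqrt (a ^ 2 + c ^ 2) with hq
  have hq0 : 0 ≤ q := Real.sqrt_nonneg _
  have hq2 : q ^ 2 = a ^ 2 + c ^ 2 := Real.sq_sqrt (by positivity)
  have hpt : ∀ ε, a * A ε + c * B ε ≤ q * R ε := by
    intro ε
    have h1 : (a * A ε + c * B ε) ^ 2 ≤ (q * R ε) ^ 2 := by
      rw [mul_pow, hq2, hRAB]
      nlinarith [sq_nonneg (a * B ε - c * A ε)]
    exact le_of_pow_le_pow_left₀ (by norm_num) (mul_nonneg hq0 (hR0 ε)) h1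
  have hsum : a * a + c * c ≤ q * d := by
    have h1 : (∑ ε, (a * A ε + c * B ε)) / 2 ^ r ≤ (∑ ε, q * R ε) / 2 ^ r :=
      div_le_div_of_nonneg_right (Finset.sum_le_sum fun ε _ => hpt ε) (by positivity)
    rw [Finset.sum_add_distrib, ← Finset.mul_sum, ← Finset.mul_sum, ← Finset.mul_sum, add_div,
      mul_div_assoc, mul_div_assoc, mul_div_assoc] at h1
    exact h1
  have h2 : q * q ≤ q * d := by nlinarith
  rcases hq0.eq_or_lt with h0 | h0
  · rw [← h0] at hq2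
    nlinarith
  · have h3 : q ≤ d := le_of_mul_le_mul_left h2 h0
    nlinarith

theorem cotX {r : ℕ} (x : Fin r → X m b) : ∑ i, ‖x i‖ ^ 4 ≤ (2 * signAvg x) ^ 4 := by
  have h1 := cotY (fun i => (x i).fst)
  have h2 := cotZ (fun i => (x i).snd)
  have h3 := signAvg_X x
  simp only [normX_pow, Finset.sum_add_distrib]
  nlinarith

theorem cotype_X : CotypeLe (X m b) 4 2 := by
  intro r x
  have h := cotX x
  have h0 : 0 ≤ ∑ i, ‖x i‖ ^ 4 := Finset.sum_nonneg fun _ _ => by positivity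
  have h1 : ∑ i, ‖x i‖ ^ (4:ℝ) = ∑ i, ‖x i‖ ^ 4 :=
    Finset.sum_congr rfl fun i _ => by
      rw [← Real.rpow_natCast]; norm_num
  rw [h1]
  have h2 : 0 ≤ 2 * signAvg x := mul_nonneg (by norm_num) (signAvg_nonneg x)
  calc (∑ i, ‖x i‖ ^ 4) ^ (1 / (4:ℝ)) ≤ ((2 * signAvg x) ^ 4) ^ (1 / (4:ℝ)) :=
        Real.rpow_le_rpow h0 h (by norm_num)
    _ = 2 * signAvg x := by
        rw [← Real.rpow_natCast, ← Real.rpow_mul h2]
        norm_num

theorem cotype_X_least (C : ℝ) (hC : CotypeLe (X m b) 4 C) : 2 ≤ C := by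
  classical
  set e : Fin 16 → X m b := fun i => WithLp.toLp 4 ((0 : Y m b), (Pi.single i (1:ℝ) : Fin 16 → ℝ))
    with he
  have hn : ∀ i, ‖e i‖ = 1 := by
    intro i
    have h1 : ‖e i‖ ^ 4 = 1 := by
      rw [normX_pow]
      have h2 : ‖(Pi.single i (1:ℝ) : Fin 16 → ℝ)‖ = 1 := by
        apply le_antisymm
        · rw [pi_norm_le_iff_of_nonneg zero_le_one]
          intro j
          by_cases hj : j = i
          · subst hj; simp
          · simp [Pi.single_eq_of_ne hj]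
        · have := norm_le_pi_norm (Pi.single i (1:ℝ) : Fin 16 → ℝ) i
          rw [Pi.single_eq_same, norm_one] at this
          exact this
      simp [he, h2]
    exact (pow_eq_one_iff_of_nonneg (norm_nonneg _) (by norm_num)).1 h1
  have hs : ∀ ε : Fin 16 → Bool, ‖∑ i, sgn (ε i) • e i‖ = 1 := by
    intro ε
    have h2 : ∑ i, sgn (ε i) • e i = WithLp.toLp 4 ((0 : Y m b), (fun i => sgn (ε i) : Fin 16 → ℝ)) := by
      have h3 : ∀ i, sgn (ε i) • e i = WithLp.toLp 4 ((0 : Y m b),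
          (Pi.single i (sgn (ε i)) : Fin 16 → ℝ)) := by
        intro i
        simp only [he, ← WithLp.toLp_smul]
        congr 1
        ext j <;> simp [Pi.single_apply]
      simp only [h3]
      rw [← WithLp.toLp_sum]
      congr 1
      ext1
      · simp [Prod.fst_sum]
      · simp only [Prod.snd_sum]
        exact Finset.univ_sum_single _
    have h1 : ‖∑ i, sgn (ε i) • e i‖ ^ 4 = 1 := by
      rw [h2, normX_pow]
      have h4 : ‖(fun i => sgn (ε i) : Fin 16 → ℝ)‖ = 1 := by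
        apply le_antisymm
        · rw [pi_norm_le_iff_of_nonneg zero_le_one]
          intro i
          rw [Real.norm_eq_abs, abs_sgn]
        · have := norm_le_pi_norm (fun i => sgn (ε i) : Fin 16 → ℝ) 0
          rw [Real.norm_eq_abs, abs_sgn] at this
          exact this
      simp [h4]
    exact (pow_eq_one_iff_of_nonneg (norm_nonneg _) (by norm_num)).1 h1
  have h := hC 16 e
  have h5 : signAvg e = 1 := by
    unfold signAvg
    simp only [hs]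
    have h6 : (∑ _ε : Fin 16 → Bool, (1:ℝ) ^ 2) / 2 ^ 16 = 1 := by
      rw [Finset.sum_const, Finset.card_univ, Fintype.card_fun, Fintype.card_bool,
        Fintype.card_fin]
      norm_num
    rw [h6, Real.sqrt_one]
  rw [h5] at h
  simp only [hn] at h
  have h6 : (∑ _i : Fin 16, (1:ℝ) ^ (4:ℝ)) ^ (1 / (4:ℝ)) = 2 := by
    simp only [Real.one_rpow, Finset.sum_const, Finset.card_univ, Fintype.card_fin, nsmul_eq_mul,
      mul_one]
    rw [show ((16:ℕ):ℝ) = (2:ℝ) ^ (4:ℝ) by norm_num, ← Real.rpow_mul (by norm_num)]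
    norm_num
  rw [h6] at h
  linarith

end Run7.h35.TT
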