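import Mathlib

/-!
# Type 2 and cotype `q` of normed spaces: definitions
-/

set_option autoImplicit false

open Finset

namespace Run7.h35.TT

/-- The sign `±1` given by a Boolean. -/
def sgn (b : Bool) : ℝ := if b then 1 else -1

/-- `(E ‖∑ ε_i x_i‖²)^{1/2}`, the average over all choices of signs. -/
noncomputable def signAvg {X : Type*} [NormedAddCommGroup X] [NormedSpace ℝ X] {r : ℕ}
    (x : Fin r → X) : ℝ :=
  Real.sqrt ((∑ ε : Fin r → Bool, ‖∑ i, sgn (ε i) • x i‖ ^ 2) / 2 ^ r)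

/-- The linear subspace `E` of `X` has type 2 constant `T₂(E) ≤ T`. -/
def TypeTwoLe {X : Type*} [NormedAddCommGroup X] [NormedSpace ℝ X] (E : Submodule ℝ X) (T : ℝ) :
    Prop :=
  ∀ (r : ℕ) (x : Fin r → X), (∀ i, x i ∈ E) → signAvg x ≤ T * Real.sqrt (∑ i, ‖x i‖ ^ 2)

/-- The space `X` has cotype `q` constant `C_q(X) ≤ C`. -/
def CotypeLe (X : Type*) [NormedAddCommGroup X] [NormedSpace ℝ X] (q C : ℝ) : Prop :=
  ∀ (r : ℕ) (x : Fin r → X), (∑ i, ‖x i‖ ^ q) ^ (1 / q) ≤ C * signAvg x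

end Run7.h35.TT
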