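import Pool.Agent.Run7.h35.TT.Cot

/-!
# All subspaces of proportional dimension have large type 2 constant
-/

set_option autoImplicit false

open Finset Module
open scoped ENNReal

namespace Run7.h35.TT

variable {m b : ℕ}

/-- the inclusion of `Y` in `X` -/
noncomputable def inlX : Y m b →ₗ[ℝ] X m b :=
  (WithLp.linearEquiv 4 ℝ (Y m b × (Fin 16 → ℝ))).symm.toLinearMap ∘ₗ
    LinearMap.inl ℝ (Y m b) (Fin 16 → ℝ)

theorem inlX_apply (y : Y m b) : inlX y = WithLp.toLp 4 (y, (0 : Fin 16 → ℝ)) := rfl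

theorem norm_inlX (y : Y m b) : ‖inlX y‖ = ‖y‖ := by
  have h : ‖inlX y‖ ^ 4 = ‖y‖ ^ 4 := by
    rw [normX_pow, inlX_apply]
    simp
  exact (pow_left_inj₀ (norm_nonneg _) (norm_nonneg _) (by norm_num)).1 h

theorem typeTwo_inl (E : Submodule ℝ (X m b)) (T : ℝ) (h : TypeTwoLe E T) :
    TypeTwoLe (E.comap (inlX (m := m) (b := b))) T := by
  intro r y hy
  have h1 := h r (fun i => inlX (y i)) (fun i => hy i)
  have h2 : signAvg (fun i => inlX (y i)) = signAvg y := by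
    unfold signAvg
    congr 2
    refine Finset.sum_congr rfl fun ε _ => ?_
    congr 1
    rw [← norm_inlX (∑ i, sgn (ε i) • y i), map_sum]
    simp only [map_smul]
  rw [h2] at h1
  simpa only [norm_inlX] using h1

theorem finrank_comap_inl (E : Submodule ℝ (X m b)) :
    finrank ℝ E ≤ finrank ℝ (E.comap (inlX (m := m) (b := b))) + 16 := by
  set g : E →ₗ[ℝ] (Fin 16 → ℝ) :=
    (WithLp.sndL 4 ℝ (Y m b) (Fin 16 → ℝ)).toLinearMap ∘ₗ E.subtype with hg
  have h1 := g.finrank_range_add_finrank_ker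
  have h2 : finrank ℝ (LinearMap.range g) ≤ 16 := by
    have := Submodule.finrank_le (LinearMap.range g)
    simpa using this
  have h3 : finrank ℝ (LinearMap.ker g) ≤ finrank ℝ (E.comap (inlX (m := m) (b := b))) := by
    have hmem : ∀ x : LinearMap.ker g, ((x : E) : X m b).fst ∈ E.comap (inlX (m := m) (b := b)) := by
      intro x
      have h4 : ((x : E) : X m b).snd = 0 := x.2
      rw [Submodule.mem_comap]
      have h5 : inlX ((x : E) : X m b).fst = ((x : E) : X m b) := by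
        rw [inlX_apply, ← h4]
        rfl
      rw [h5]
      exact (x : E).2
    let φ : LinearMap.ker g →ₗ[ℝ] E.comap (inlX (m := m) (b := b)) :=
      LinearMap.codRestrict _ ((WithLp.fstL 4 ℝ (Y m b) (Fin 16 → ℝ)).toLinearMap ∘ₗ E.subtype ∘ₗ
        (LinearMap.ker g).subtype) hmem
    refine LinearMap.finrank_le_finrank_of_injective (f := φ) ?_
    rw [← LinearMap.ker_eq_bot, Submodule.eq_bot_iff]
    intro x hx
    have h6 : ((x : E) : X m b).fst = 0 := by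
      have h60 : φ x = 0 := hx
      have h61 : (φ x : Y m b) = 0 := by rw [h60]; rfl
      exact h61
    have h4 : ((x : E) : X m b).snd = 0 := x.2
    apply Subtype.ext
    apply Subtype.ext
    have h7 : ‖((x : E) : X m b)‖ ^ 4 = 0 := by
      rw [normX_pow, h6, h4]; simp
    have h8 : ‖((x : E) : X m b)‖ = 0 := by
      exact pow_eq_zero_iff (by norm_num) |>.1 h7
    exact norm_eq_zero.1 h8
  omega

theorem finrank_X : finrank ℝ (X m b) = m * b + 16 := by
  rw [(WithLp.linearEquiv 4 ℝ (Y m b × (Fin 16 → ℝ))).finrank_eq, Module.finrank_prod,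
    ← (eY m b).finrank_eq]
  simp

theorem TypeTwoLe.mono {V : Type*} [NormedAddCommGroup V] [NormedSpace ℝ V]
    {E : Submodule ℝ V} {T T' : ℝ} (h : TypeTwoLe E T) (hT : T ≤ T') : TypeTwoLe E T' :=
  fun r x hx => (h r x hx).trans (mul_le_mul_of_nonneg_right hT (Real.sqrt_nonneg _))

theorem exists_X (lam T : ℝ) (hl0 : 0 < lam) (hl1 : lam ≤ 1) : ∃ m b : ℕ,
    ∀ E : Submodule ℝ (X m b), lam * (m * b + 16 : ℕ) ≤ finrank ℝ E → ¬ TypeTwoLe E T := by
  set T' := max T 1 with hT'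
  have hT1 : 1 ≤ T' := le_max_right _ _
  have hT0 : 0 < T' := by linarith
  set l' := lam / 2 with hl'
  have hl'0 : 0 < l' := by positivity
  obtain ⟨r2, hr2⟩ := exists_nat_gt (16 * T' ^ 2 / (l' ^ 2 / 128) ^ 2)
  obtain ⟨K₀, hK₀⟩ := exists_nat_ge ((4 * r2 + 3) * (2 ^ 26 * T' ^ 4) / ((l' ^ 2 / 128) * l') ^ 4)
  set K := max K₀ 1 with hKd
  have hK1 : 1 ≤ K := le_max_right _ _
  have hK0 : (0:ℝ) < K := by exact_mod_cast hK1
  have hr20 : (0:ℝ) < r2 := lt_of_le_of_lt (by positivity) hr2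
  have hKK : (4 * r2 + 3) * (2 ^ 26 * T' ^ 4) / ((l' ^ 2 / 128) * l') ^ 4 ≤ (K : ℝ) :=
    hK₀.trans (by exact_mod_cast le_max_left _ _)
  have hK2 : (4 * r2 + 3) / (K : ℝ) ≤ ((l' ^ 2 / 128) * l') ^ 4 / (2 ^ 26 * T' ^ 4) := by
    rw [div_le_div_iff₀ hK0 (by positivity)]
    rw [div_le_iff₀ (by positivity)] at hKK
    linarith
  refine ⟨2 * r2 * K ^ K, K, fun E hE hT => ?_⟩
  refine not_typeTwo_Y l' hl'0 (by linarith) T' hT1 r2 K hK1 hr2 hK2 _ rfl
    (E.comap (inlX (m := 2 * r2 * K ^ K) (b := K))) ?_ (typeTwo_inl E T' (hT.mono (le_max_left _ _)))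
  have h1 := finrank_comap_inl E
  have h1' : (finrank ℝ E : ℝ) ≤ finrank ℝ (E.comap (inlX (m := 2 * r2 * K ^ K) (b := K))) + 16 := by
    exact_mod_cast h1
  have h2 : 32 / lam ≤ r2 := by
    refine le_trans ?_ hr2.le
    rw [div_le_div_iff₀ hl0 (by positivity)]
    have h3 : lam ^ 4 ≤ lam := by
      calc lam ^ 4 = lam * lam ^ 3 := by ring
        _ ≤ lam * 1 := mul_le_mul_of_nonneg_left (pow_le_one₀ hl0.le hl1) hl0.le
        _ = lam := mul_one _
    have h4 : (1:ℝ) ≤ T' ^ 2 := one_le_pow₀ hT1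
    rw [hl']
    nlinarith
  rw [div_le_iff₀ hl0] at h2
  have h3 : (r2 : ℝ) ≤ ((2 * r2 * K ^ K : ℕ) : ℝ) * K := by
    have : r2 ≤ 2 * r2 * K ^ K * K := by
      have h5 : 1 ≤ K ^ K := Nat.one_le_pow _ _ hK1
      have h6 : 1 ≤ K ^ K * K := Nat.mul_pos h5 hK1
      calc r2 = r2 * 1 := (mul_one _).symm
        _ ≤ (2 * r2) * (K ^ K * K) := Nat.mul_le_mul (by omega) h6
        _ = 2 * r2 * K ^ K * K := by ring
    exact_mod_cast this
  have h4 : ((2 * r2 * K ^ K * K + 16 : ℕ) : ℝ) = ((2 * r2 * K ^ K : ℕ) : ℝ) * K + 16 := by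
    push_cast; ring
  rw [h4] at hE
  nlinarith

/-! ### norms on `ℝ^n` -/

variable {n : ℕ}

/-- `(E p(∑ ε_i x_i)²)^{1/2}`, the average over all choices of signs. -/
noncomputable def avg2 (p : Seminorm ℝ (Fin n → ℝ)) {r : ℕ} (x : Fin r → (Fin n → ℝ)) : ℝ :=
  Real.sqrt ((∑ ε : Fin r → Bool, p (∑ i, sgn (ε i) • x i) ^ 2) / 2 ^ r)

/-- `T₂(E) ≤ T` for the subspace `E` of `(ℝ^n, p)`. -/
def T2Le (p : Seminorm ℝ (Fin n → ℝ)) (E : Submodule ℝ (Fin n → ℝ)) (T : ℝ) : Prop :=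
  ∀ (r : ℕ) (x : Fin r → (Fin n → ℝ)), (∀ i, x i ∈ E) →
    avg2 p x ≤ T * Real.sqrt (∑ i, p (x i) ^ 2)

/-- `C_q(X) ≤ C` for `X = (ℝ^n, p)`. -/
def CqLe (p : Seminorm ℝ (Fin n → ℝ)) (q C : ℝ) : Prop :=
  ∀ (r : ℕ) (x : Fin r → (Fin n → ℝ)), (∑ i, p (x i) ^ q) ^ (1 / q) ≤ C * avg2 p x

theorem exists_norm (lam T : ℝ) (hl0 : 0 < lam) : ∃ (n : ℕ) (p : Seminorm ℝ (Fin n → ℝ)),
    0 < n ∧ (∀ x, p x = 0 → x = 0) ∧ IsLeast {C | CqLe p 4 C} 2 ∧
    ∀ E : Submodule ℝ (Fin n → ℝ), lam * n ≤ finrank ℝ E → ¬ T2Le p E T := by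
  obtain ⟨m, b, hmb⟩ := exists_X (min lam 1) T (lt_min hl0 one_pos) (min_le_right _ _)
  have hfr : finrank ℝ (Fin (m * b + 16) → ℝ) = finrank ℝ (X m b) := by
    rw [finrank_X]; simp
  let e : (Fin (m * b + 16) → ℝ) ≃ₗ[ℝ] X m b := LinearEquiv.ofFinrankEq _ _ hfr
  set p : Seminorm ℝ (Fin (m * b + 16) → ℝ) := (normSeminorm ℝ (X m b)).comp e.toLinearMap with hp
  have hpe : ∀ x, p x = ‖e x‖ := fun x => rfl
  have havg : ∀ {r : ℕ} (x : Fin r → (Fin (m * b + 16) → ℝ)),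
      avg2 p x = signAvg (fun i => e (x i)) := by
    intro r x
    unfold avg2 signAvg
    congr 2
    refine Finset.sum_congr rfl fun ε _ => ?_
    rw [hpe, map_sum]
    simp only [map_smul]
  refine ⟨m * b + 16, p, by omega, fun x hx => ?_, ⟨?_, ?_⟩, ?_⟩
  · rw [hpe, norm_eq_zero] at hx
    exact e.map_eq_zero_iff.1 hx
  · intro r x
    have h := cotype_X (m := m) (b := b) r (fun i => e (x i))
    rw [havg]
    exact h
  · intro C hC
    refine cotype_X_least (m := m) (b := b) C fun r x => ?_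
    have h := hC r (fun i => e.symm (x i))
    rw [havg] at h
    simpa only [hpe, LinearEquiv.apply_symm_apply] using h
  · intro E hE hT
    refine hmb (E.map e.toLinearMap) ?_ ?_
    · rw [LinearEquiv.finrank_map_eq]
      refine le_trans (mul_le_mul_of_nonneg_right (min_le_left _ _) (by positivity)) hE
    · intro r x hx
      have hx' : ∀ i, e.symm (x i) ∈ E := by
        intro i
        obtain ⟨y, hy, hyx⟩ := hx i
        have : e.symm (x i) = y := by rw [← hyx]; simp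
        rw [this]; exact hy
      have h := hT r (fun i => e.symm (x i)) hx'
      rw [havg] at h
      simpa only [hpe, LinearEquiv.apply_symm_apply] using h

end Run7.h35.TT
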