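import Pool.Agent.Run7.h35.TT.Prob
import Pool.Agent.Run7.h35.TT.Defs

/-!
# Type 2 forbids concentration of a random vector on rare rows
-/

set_option autoImplicit false

open Finset

namespace Run7.h35.TT

theorem sgn_not (b : Bool) : sgn (!b) = - sgn b := by cases b <;> simp [sgn]

theorem abs_sgn (b : Bool) : |sgn b| = 1 := by cases b <;> simp [sgn]

theorem sgn_sq (b : Bool) : sgn b ^ 2 = 1 := by cases b <;> simp [sgn]

/-- The average over signs dominates each single vector. -/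
theorem single_le_avg {X : Type*} [AddCommGroup X] [Module ℝ X] (ν : Seminorm ℝ X) {r : ℕ}
    (x : Fin r → X) (k : Fin r) :
    ν (x k) ≤ (∑ ε : Fin r → Bool, ν (∑ i, sgn (ε i) • x i)) / 2 ^ r := by
  classical
  rw [le_div_iff₀ (by positivity)]
  set S : (Fin r → Bool) → X := fun ε => ∑ i, sgn (ε i) • x i with hS
  let fl : (Fin r → Bool) → (Fin r → Bool) := fun ε i => if i = k then ε i else !(ε i)
  have hfl : ∀ ε, fl (fl ε) = ε := by
    intro ε
    funext i
    by_cases h : i = k <;> simp [fl, h]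
  have h1 : ∑ ε, ν (S ε) = ∑ ε, ν (S (fl ε)) :=
    (Finset.sum_nbij' fl fl (by simp) (by simp) (fun ε _ => hfl ε) (fun ε _ => hfl ε)
      (fun ε _ => by rw [hfl]))
  have h2 : ∀ ε, 2 * ν (x k) ≤ ν (S ε) + ν (S (fl ε)) := by
    intro ε
    have h3 : S ε + S (fl ε) = (2 * sgn (ε k)) • x k := by
      simp only [hS]
      rw [← Finset.sum_add_distrib, Finset.sum_eq_single k]
      · simp only [fl, if_true]
        rw [← add_smul]
        congr 1
        ring
      · intro i _ hi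
        simp only [fl, if_neg hi]
        rw [sgn_not, neg_smul, add_neg_cancel]
      · simp
    have h4 : ν (S ε + S (fl ε)) = 2 * ν (x k) := by
      rw [h3, map_smul_eq_mul, Real.norm_eq_abs, abs_mul, abs_sgn]
      norm_num
    rw [← h4]
    exact map_add_le_add ν _ _
  have h5 : ∑ _ε : Fin r → Bool, 2 * ν (x k) ≤ ∑ ε, (ν (S ε) + ν (S (fl ε))) :=
    Finset.sum_le_sum fun ε _ => h2 ε
  rw [Finset.sum_add_distrib, ← h1, Finset.sum_const, Finset.card_univ, Fintype.card_fun,
    Fintype.card_bool, Fintype.card_fin, nsmul_eq_mul] at h5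
  push_cast at h5
  linarith

theorem avg_le_signAvg {X : Type*} [NormedAddCommGroup X] [NormedSpace ℝ X] {r : ℕ}
    (x : Fin r → X) : (∑ ε : Fin r → Bool, ‖∑ i, sgn (ε i) • x i‖) / 2 ^ r ≤ signAvg x := by
  unfold signAvg
  apply Real.le_sqrt_of_sq_le
  rw [div_pow, div_le_div_iff₀ (by positivity) (by positivity)]
  have h := sq_sum_le_card_mul_sum_sq (s := (univ : Finset (Fin r → Bool)))
    (f := fun ε => ‖∑ i, sgn (ε i) • x i‖)
  rw [Finset.card_univ, Fintype.card_fun, Fintype.card_bool, Fintype.card_fin] at h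
  push_cast at h
  have h2 : (0:ℝ) < 2 ^ r := by positivity
  calc (∑ ε : Fin r → Bool, ‖∑ i, sgn (ε i) • x i‖) ^ 2 * 2 ^ r
      ≤ (2 ^ r * ∑ ε : Fin r → Bool, ‖∑ i, sgn (ε i) • x i‖ ^ 2) * 2 ^ r :=
        mul_le_mul_of_nonneg_right h h2.le
    _ = _ := by ring

/-- If `T₂(E) ≤ T`, a random vector of `E` of norm at most `M` has little norm on rows selected
with small probability. -/
theorem lemD {X : Type*} [NormedAddCommGroup X] [NormedSpace ℝ X] (E : Submodule ℝ X) (T : ℝ)
    (hT0 : 0 ≤ T) (hT : TypeTwoLe E T) {I : Type*} [Fintype I] (ν : I → Seminorm ℝ X)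
    (hν : ∀ x, ∑ i, ν i x ≤ ‖x‖) {Ω : Type*} [Fintype Ω] (w : Ω → ℝ) (hw : ∀ a, 0 ≤ w a)
    (hw1 : ∑ a, w a = 1) (x : Ω → X) (hx : ∀ a, x a ∈ E) (M : ℝ) (hM : 0 ≤ M)
    (hxM : ∀ a, ‖x a‖ ≤ M)
    (b : I → Ω → ℝ) (hb : ∀ i a, b i a = 0 ∨ b i a = 1) (p : ℝ) (hp : ∀ i, ∑ a, w a * b i a ≤ p)
    (r : ℕ) (hr : 1 ≤ r) (hrp : r * p ≤ 1 / 2) :
    ∑ i, ∑ a, w a * (b i a * ν i (x a)) ≤ 2 * T * M / Real.sqrt r := by
  classical
  have hr0 : (0:ℝ) < r := by exact_mod_cast (by omega : 0 < r)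
  have hb0 : ∀ i a, 0 ≤ b i a := fun i a => by rcases hb i a with h | h <;> rw [h]; norm_num
  -- the functional
  set α : I → ℝ := fun i => ∑ a, w a * (b i a * ν i (x a)) with hα
  have hα0 : ∀ i, 0 ≤ α i := fun i => Finset.sum_nonneg fun a _ =>
    mul_nonneg (hw a) (mul_nonneg (hb0 i a) (apply_nonneg _ _))
  set Φ : (Fin r → Ω) → ℝ := fun ω => ∑ i, ∑ k, ν i (x (ω k)) * b i (ω k) *
    (1 - ∑ l ∈ univ.erase k, b i (ω l)) with hΦ
  have hup : ∀ ω, Φ ω ≤ T * (Real.sqrt r * M) := by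
    intro ω
    have h1 : Φ ω ≤ ∑ i, (∑ ε : Fin r → Bool, ν i (∑ k, sgn (ε k) • x (ω k))) / 2 ^ r := by
      refine Finset.sum_le_sum fun i _ => ?_
      refine bonferroni (fun k => ν i (x (ω k))) (fun k => b i (ω k)) _ ?_ (fun k => hb i _)
        (fun k => apply_nonneg _ _) (fun k _ => single_le_avg (ν i) (fun k => x (ω k)) k)
      exact div_nonneg (Finset.sum_nonneg fun ε _ => apply_nonneg _ _) (by positivity)
    have h2 : ∑ i, (∑ ε : Fin r → Bool, ν i (∑ k, sgn (ε k) • x (ω k))) / 2 ^ r ≤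
        (∑ ε : Fin r → Bool, ‖∑ k, sgn (ε k) • x (ω k)‖) / 2 ^ r := by
      rw [← Finset.sum_div, Finset.sum_comm]
      refine div_le_div_of_nonneg_right (Finset.sum_le_sum fun ε _ => hν _) (by positivity)
    have h3 := avg_le_signAvg (fun k => x (ω k))
    have h4 := hT r (fun k => x (ω k)) (fun k => hx _)
    have h5 : Real.sqrt (∑ k, ‖x (ω k)‖ ^ 2) ≤ Real.sqrt r * M := by
      rw [← Real.sqrt_sq hM, ← Real.sqrt_mul hr0.le]
      apply Real.sqrt_le_sqrt
      calc ∑ k, ‖x (ω k)‖ ^ 2 ≤ ∑ _k : Fin r, M ^ 2 :=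
            Finset.sum_le_sum fun k _ => pow_le_pow_left₀ (norm_nonneg _) (hxM _) 2
        _ = r * M ^ 2 := by simp
    exact ((h1.trans h2).trans (h3.trans h4)).trans (mul_le_mul_of_nonneg_left h5 hT0)
  have hEup : EE w Φ ≤ T * (Real.sqrt r * M) := by
    calc EE w Φ ≤ EE w (fun _ : Fin r → Ω => T * (Real.sqrt r * M)) := EE_mono w hw _ _ hup
      _ = _ := EE_const w hw1 _
  have hElow : (r / 2) * ∑ i, α i ≤ EE w Φ := by
    have h1 : EE w Φ = ∑ i, ∑ k : Fin r, EE w (fun ω : Fin r → Ω => ν i (x (ω k)) * b i (ω k) *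
        (1 - ∑ l ∈ univ.erase k, b i (ω l))) := by
      rw [hΦ, EE_sum]
      refine Finset.sum_congr rfl fun i _ => ?_
      rw [EE_sum]
    rw [h1, Finset.mul_sum]
    refine Finset.sum_le_sum fun i _ => ?_
    have h2 : ∀ k : Fin r, α i * (1 - r * p) ≤ EE w (fun ω : Fin r → Ω =>
        ν i (x (ω k)) * b i (ω k) * (1 - ∑ l ∈ univ.erase k, b i (ω l))) := by
      intro k
      have h3 : EE w (fun ω : Fin r → Ω =>
          ν i (x (ω k)) * b i (ω k) * (1 - ∑ l ∈ univ.erase k, b i (ω l))) =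
          α i * (1 - ∑ _l ∈ univ.erase k, ∑ a, w a * b i a) := by
        rw [EE_indep w hw1 k (fun a => ν i (x a) * b i a)
          (fun ω => 1 - ∑ l ∈ univ.erase k, b i (ω l))]
        · congr 1
          · rw [hα]
            exact Finset.sum_congr rfl fun a _ => by ring
          · rw [EE_sub, EE_const w hw1, EE_sum]
            congr 1
            exact Finset.sum_congr rfl fun l _ => EE_coord w hw1 l (b i)
        · intro ω a
          congr 1
          refine Finset.sum_congr rfl fun l hl => ?_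
          rw [Function.update_of_ne (Finset.ne_of_mem_erase hl)]
      rw [h3]
      refine mul_le_mul_of_nonneg_left ?_ (hα0 i)
      have hp0 : 0 ≤ p := le_trans (Finset.sum_nonneg fun a _ => mul_nonneg (hw a) (hb0 i a)) (hp i)
      have h4 : ∑ _l ∈ univ.erase k, ∑ a, w a * b i a ≤ r * p := by
        rw [Finset.sum_const, nsmul_eq_mul]
        have h5 : ((univ.erase k).card : ℝ) ≤ r := by
          have : (univ.erase k).card ≤ r := by
            rw [Finset.card_erase_of_mem (Finset.mem_univ k), Finset.card_univ, Fintype.card_fin]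
            omega
          exact_mod_cast this
        calc ((univ.erase k).card : ℝ) * ∑ a, w a * b i a ≤ ((univ.erase k).card : ℝ) * p :=
              mul_le_mul_of_nonneg_left (hp i) (by positivity)
          _ ≤ r * p := mul_le_mul_of_nonneg_right h5 hp0
      linarith
    calc (r / 2 : ℝ) * α i ≤ ∑ _k : Fin r, α i * (1 - r * p) := by
          rw [Finset.sum_const, Finset.card_univ, Fintype.card_fin, nsmul_eq_mul]
          have h6 : α i * (1 / 2) ≤ α i * (1 - r * p) :=
            mul_le_mul_of_nonneg_left (by linarith) (hα0 i)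
          nlinarith
      _ ≤ _ := Finset.sum_le_sum fun k _ => h2 k
  have hfin : (r / 2) * ∑ i, α i ≤ T * (Real.sqrt r * M) := hElow.trans hEup
  have hsq : Real.sqrt r * Real.sqrt r = r := Real.mul_self_sqrt hr0.le
  have hs0 : 0 < Real.sqrt r := Real.sqrt_pos.2 hr0
  rw [le_div_iff₀ hs0]
  have h7 : Real.sqrt r * ((∑ i, α i) * Real.sqrt r) ≤ Real.sqrt r * (2 * T * M) := by
    calc Real.sqrt r * ((∑ i, α i) * Real.sqrt r) = (Real.sqrt r * Real.sqrt r) * ∑ i, α i := by
          ring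
      _ = r * ∑ i, α i := by rw [hsq]
      _ ≤ _ := by nlinarith
  exact le_of_mul_le_mul_left h7 hs0

end Run7.h35.TT
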