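import Mathlib

/-!
# Finite product probability: resampling, second and fourth moments
-/

set_option autoImplicit false

open Finset

namespace Run7.h35.TT

variable {J : Type*} [Fintype J] [DecidableEq J] {A : Type*} [Fintype A]

/-- product weight -/
noncomputable def Wt (w : A → ℝ) (ω : J → A) : ℝ := ∏ j, w (ω j)

/-- expectation -/
noncomputable def EE (w : A → ℝ) (F : (J → A) → ℝ) : ℝ := ∑ ω, Wt w ω * F ω

theorem Wt_nonneg (w : A → ℝ) (hw : ∀ a, 0 ≤ w a) (ω : J → A) : 0 ≤ Wt w ω :=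
  Finset.prod_nonneg fun j _ => hw _

theorem sum_Wt (w : A → ℝ) (hw1 : ∑ a, w a = 1) : ∑ ω : J → A, Wt w ω = 1 := by
  classical
  unfold Wt
  rw [← Fintype.piFinset_univ, ← Finset.prod_univ_sum]
  simp [hw1]

theorem EE_const (w : A → ℝ) (hw1 : ∑ a, w a = 1) (c : ℝ) : EE (J := J) w (fun _ => c) = c := by
  unfold EE
  rw [← Finset.sum_mul, sum_Wt w hw1, one_mul]

theorem EE_mono (w : A → ℝ) (hw : ∀ a, 0 ≤ w a) (F G : (J → A) → ℝ) (h : ∀ ω, F ω ≤ G ω) :
    EE w F ≤ EE w G :=
  Finset.sum_le_sum fun ω _ => mul_le_mul_of_nonneg_left (h ω) (Wt_nonneg w hw ω)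

theorem EE_nonneg (w : A → ℝ) (hw : ∀ a, 0 ≤ w a) (F : (J → A) → ℝ) (h : ∀ ω, 0 ≤ F ω) :
    0 ≤ EE w F :=
  Finset.sum_nonneg fun ω _ => mul_nonneg (Wt_nonneg w hw ω) (h ω)

theorem EE_add (w : A → ℝ) (F G : (J → A) → ℝ) :
    EE w (fun ω => F ω + G ω) = EE w F + EE w G := by
  unfold EE
  rw [← Finset.sum_add_distrib]
  exact Finset.sum_congr rfl fun ω _ => by ring

theorem EE_sub (w : A → ℝ) (F G : (J → A) → ℝ) :
    EE w (fun ω => F ω - G ω) = EE w F - EE w G := by
  unfold EE
  rw [← Finset.sum_sub_distrib]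
  exact Finset.sum_congr rfl fun ω _ => by ring

theorem EE_mul_left (w : A → ℝ) (c : ℝ) (F : (J → A) → ℝ) :
    EE w (fun ω => c * F ω) = c * EE w F := by
  unfold EE
  rw [Finset.mul_sum]
  exact Finset.sum_congr rfl fun ω _ => by ring

theorem EE_sum {ι : Type*} (w : A → ℝ) (s : Finset ι) (F : ι → (J → A) → ℝ) :
    EE w (fun ω => ∑ i ∈ s, F i ω) = ∑ i ∈ s, EE w (F i) := by
  unfold EE
  rw [Finset.sum_comm]
  exact Finset.sum_congr rfl fun ω _ => by rw [Finset.mul_sum]

theorem Wt_update (w : A → ℝ) (ω : J → A) (j : J) (a : A) :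
    Wt w (Function.update ω j a) * w (ω j) = Wt w ω * w a := by
  unfold Wt
  have h1 : ∏ k, w (Function.update ω j a k) = w a * ∏ k ∈ univ \ {j}, w (ω k) := by
    have : (fun k => w (Function.update ω j a k)) = Function.update (fun k => w (ω k)) j (w a) := by
      funext k
      by_cases hk : k = j
      · subst hk; simp
      · simp [Function.update_of_ne hk]
    rw [this, Finset.prod_update_of_mem (Finset.mem_univ j)]
  have h2 : ∏ k, w (ω k) = w (ω j) * ∏ k ∈ univ \ {j}, w (ω k) := by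
    rw [← Finset.mul_prod_erase univ _ (Finset.mem_univ j), Finset.sdiff_singleton_eq_erase]
  rw [h1, h2]
  ring

theorem resample (w : A → ℝ) (hw1 : ∑ a, w a = 1) (j : J) (F : (J → A) → ℝ) :
    EE w F = EE w (fun ω => ∑ a, w a * F (Function.update ω j a)) := by
  classical
  unfold EE
  have e : ((J → A) × A) ≃ ((J → A) × A) :=
    { toFun := fun p => (Function.update p.1 j p.2, p.1 j)
      invFun := fun p => (Function.update p.1 j p.2, p.1 j)
      left_inv := fun p => by simp
      right_inv := fun p => by simp }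
  have h1 : ∑ ω, Wt w ω * ∑ a, w a * F (Function.update ω j a) =
      ∑ p : (J → A) × A, Wt w p.1 * w p.2 * F (Function.update p.1 j p.2) := by
    rw [Fintype.sum_prod_type]
    refine Finset.sum_congr rfl fun ω _ => ?_
    rw [Finset.mul_sum]
    exact Finset.sum_congr rfl fun a _ => by ring
  have h2 : ∑ ω, Wt w ω * F ω = ∑ p : (J → A) × A, Wt w p.1 * w p.2 * F p.1 := by
    rw [Fintype.sum_prod_type]
    refine Finset.sum_congr rfl fun ω _ => ?_
    have : ∑ a, Wt w ω * w a * F ω = (∑ a, w a) * (Wt w ω * F ω) := by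
      rw [Finset.sum_mul]
      exact Finset.sum_congr rfl fun a _ => by ring
    simp only [this, hw1, one_mul]
  rw [h1, h2]
  refine Finset.sum_nbij' (fun p => (Function.update p.1 j p.2, p.1 j))
    (fun p => (Function.update p.1 j p.2, p.1 j)) (by simp) (by simp) (by simp) (by simp) ?_
  intro p _
  simp only [Function.update_idem, Function.update_eq_self]
  rw [Wt_update]

/-- A function of one coordinate. -/
theorem EE_coord (w : A → ℝ) (hw1 : ∑ a, w a = 1) (j : J) (g : A → ℝ) :
    EE w (fun ω : J → A => g (ω j)) = ∑ a, w a * g a := by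
  rw [resample w hw1 j]
  simp only [Function.update_self]
  exact EE_const w hw1 _

/-- A function of one coordinate times a function not depending on it. -/
theorem EE_indep (w : A → ℝ) (hw1 : ∑ a, w a = 1) (j : J) (g : A → ℝ) (H : (J → A) → ℝ)
    (hH : ∀ ω a, H (Function.update ω j a) = H ω) :
    EE w (fun ω => g (ω j) * H ω) = (∑ a, w a * g a) * EE w H := by
  rw [resample w hw1 j]
  simp only [Function.update_self, hH]
  rw [← EE_mul_left]
  unfold EE
  refine Finset.sum_congr rfl fun ω _ => ?_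
  have : ∑ a, w a * (g a * H ω) = (∑ a, w a * g a) * H ω := by
    rw [Finset.sum_mul]
    exact Finset.sum_congr rfl fun a _ => by ring
  exact congrArg (Wt w ω * ·) this

theorem EE_pair (w : A → ℝ) (hw1 : ∑ a, w a = 1) (j k : J) (hjk : k ≠ j) (g h : A → ℝ) :
    EE w (fun ω : J → A => g (ω j) * h (ω k)) = (∑ a, w a * g a) * (∑ a, w a * h a) := by
  rw [EE_indep w hw1 j g (fun ω => h (ω k)) (fun ω a => by
    simp only [Function.update_of_ne hjk]), EE_coord w hw1]

section moments

variable (w : A → ℝ) (θ : A → ℝ) (κ : ℝ)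

theorem mom2 (hw1 : ∑ a, w a = 1) (h1 : ∑ a, w a * θ a = 0) (h2 : ∑ a, w a * θ a ^ 2 = κ)
    (c : J → ℝ) (S : Finset J) :
    EE w (fun ω => (∑ j ∈ S, θ (ω j) * c j) ^ 2) = κ * ∑ j ∈ S, c j ^ 2 := by
  induction S using Finset.induction_on with
  | empty => simp [EE]
  | insert j S hj ih =>
    rw [resample w hw1 j, Finset.sum_insert hj, mul_add, ← ih, ← EE_const (J := J) w hw1
      (κ * c j ^ 2), ← EE_add]
    unfold EE
    refine Finset.sum_congr rfl fun ω _ => ?_
    congr 1
    have hX : ∀ a, ∑ k ∈ insert j S, θ (Function.update ω j a k) * c k =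
        θ a * c j + ∑ k ∈ S, θ (ω k) * c k := by
      intro a
      rw [Finset.sum_insert hj, Function.update_self]
      congr 1
      refine Finset.sum_congr rfl fun k hk => ?_
      have hkj : k ≠ j := fun h => hj (by rw [← h]; exact hk)
      rw [Function.update_of_ne hkj]
    simp only [hX]
    set X := ∑ k ∈ S, θ (ω k) * c k with hXd
    have h3 : ∑ a, w a * (θ a * c j + X) ^ 2 = (∑ a, w a * θ a ^ 2) * c j ^ 2 +
        (∑ a, w a * θ a) * (2 * c j * X) + (∑ a, w a) * X ^ 2 := by
      rw [Finset.sum_mul, Finset.sum_mul, Finset.sum_mul, ← Finset.sum_add_distrib,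
        ← Finset.sum_add_distrib]
      exact Finset.sum_congr rfl fun a _ => by ring
    rw [h3, h1, h2, hw1]
    ring

theorem mom4 (hw : ∀ a, 0 ≤ w a) (hw1 : ∑ a, w a = 1) (h1 : ∑ a, w a * θ a = 0)
    (h2 : ∑ a, w a * θ a ^ 2 = κ)
    (h3 : ∑ a, w a * θ a ^ 3 = 0) (h4 : ∑ a, w a * θ a ^ 4 = κ) (c : J → ℝ) (S : Finset J) :
    EE w (fun ω => (∑ j ∈ S, θ (ω j) * c j) ^ 4) ≤
      κ * ∑ j ∈ S, c j ^ 4 + 3 * κ ^ 2 * (∑ j ∈ S, c j ^ 2) ^ 2 := by
  induction S using Finset.induction_on with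
  | empty => simp [EE]
  | insert j S hj ih =>
    have hm2 := mom2 w θ κ hw1 h1 h2 c S
    have hκ : 0 ≤ κ := by
      rw [← h2]
      exact Finset.sum_nonneg fun a _ => mul_nonneg (hw a) (sq_nonneg _)
    have key : EE w (fun ω => (∑ k ∈ insert j S, θ (ω k) * c k) ^ 4) =
        EE w (fun ω => (∑ k ∈ S, θ (ω k) * c k) ^ 4) +
          6 * c j ^ 2 * κ * EE w (fun ω => (∑ k ∈ S, θ (ω k) * c k) ^ 2) + κ * c j ^ 4 := by
      rw [resample w hw1 j, ← EE_mul_left, ← EE_add, ← EE_const (J := J) w hw1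
        (κ * c j ^ 4), ← EE_add]
      unfold EE
      refine Finset.sum_congr rfl fun ω _ => ?_
      congr 1
      have hX : ∀ a, ∑ k ∈ insert j S, θ (Function.update ω j a k) * c k =
          θ a * c j + ∑ k ∈ S, θ (ω k) * c k := by
        intro a
        rw [Finset.sum_insert hj, Function.update_self]
        congr 1
        refine Finset.sum_congr rfl fun k hk => ?_
        have hkj : k ≠ j := fun h => hj (by rw [← h]; exact hk)
        rw [Function.update_of_ne hkj]
      simp only [hX]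
      set X := ∑ k ∈ S, θ (ω k) * c k with hXd
      have h5 : ∑ a, w a * (θ a * c j + X) ^ 4 = (∑ a, w a * θ a ^ 4) * c j ^ 4 +
          (∑ a, w a * θ a ^ 3) * (4 * c j ^ 3 * X) + (∑ a, w a * θ a ^ 2) * (6 * c j ^ 2 * X ^ 2) +
          (∑ a, w a * θ a) * (4 * c j * X ^ 3) + (∑ a, w a) * X ^ 4 := by
        simp only [Finset.sum_mul]
        rw [← Finset.sum_add_distrib, ← Finset.sum_add_distrib, ← Finset.sum_add_distrib,
          ← Finset.sum_add_distrib]
        exact Finset.sum_congr rfl fun a _ => by ring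
      rw [h5, h1, h2, h3, h4, hw1]
      ring
    rw [key, hm2, Finset.sum_insert hj, Finset.sum_insert hj]
    set s2 := ∑ k ∈ S, c k ^ 2
    set s4 := ∑ k ∈ S, c k ^ 4
    nlinarith [ih, mul_nonneg (mul_nonneg (by norm_num : (0:ℝ) ≤ 3) (sq_nonneg κ))
      (sq_nonneg (c j ^ 2))]

end moments

/-- Bonferroni: a sum restricted to isolated indices. -/
theorem bonferroni {ι : Type*} [Fintype ι] [DecidableEq ι] (a b : ι → ℝ) (Q : ℝ) (hQ : 0 ≤ Q)
    (hb : ∀ k, b k = 0 ∨ b k = 1) (ha : ∀ k, 0 ≤ a k) (haQ : ∀ k, b k = 1 → a k ≤ Q) :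
    ∑ k, a k * b k * (1 - ∑ l ∈ univ.erase k, b l) ≤ Q := by
  have hb0 : ∀ k, 0 ≤ b k := fun k => by rcases hb k with h | h <;> rw [h]; norm_num
  by_cases h : ∃ k l, k ≠ l ∧ b k = 1 ∧ b l = 1
  · obtain ⟨k, l, hkl, hk, hl⟩ := h
    refine le_trans (Finset.sum_nonpos fun i _ => ?_) hQ
    rcases hb i with hi | hi
    · rw [hi]; simp
    · have : 1 ≤ ∑ l ∈ univ.erase i, b l := by
        by_cases hik : i = k
        · have hmem : l ∈ univ.erase i := by
            simp [hik, hkl.symm]
          calc (1:ℝ) = b l := hl.symm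
            _ ≤ _ := Finset.single_le_sum (f := b) (fun x _ => hb0 x) hmem
        · have hmem : k ∈ univ.erase i := by
            simp [Ne.symm hik]
          calc (1:ℝ) = b k := hk.symm
            _ ≤ _ := Finset.single_le_sum (f := b) (fun x _ => hb0 x) hmem
      have h0 : 0 ≤ a i * b i := mul_nonneg (ha i) (hb0 i)
      nlinarith
  · push Not at h
    by_cases h' : ∃ k, b k = 1
    · obtain ⟨k, hk⟩ := h'
      have hz : ∀ l, l ≠ k → b l = 0 := fun l hl => by
        rcases hb l with h1 | h1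
        · exact h1
        · exact absurd h1 (h k l hl.symm hk)
      rw [Finset.sum_eq_single k]
      · have : ∑ l ∈ univ.erase k, b l = 0 :=
          Finset.sum_eq_zero fun l hl => hz l (Finset.ne_of_mem_erase hl)
        rw [this, hk]
        simpa using haQ k hk
      · intro l _ hl
        rw [hz l hl]; simp
      · simp
    · push Not at h'
      refine le_trans (le_of_eq (Finset.sum_eq_zero fun k _ => ?_)) hQ
      rcases hb k with h1 | h1
      · rw [h1]; simp
      · exact absurd h1 (h' k)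

end Run7.h35.TT
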