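import Pool.Agent.Run7.h35.TT.CoreC

/-!
# The space `ℓ₁^m(ℓ₄^b) ⊕ ℓ_∞^16`
-/

set_option autoImplicit false

open Finset Module
open scoped ENNReal

namespace Run7.h35.TT

instance fact4 : Fact ((1:ℝ≥0∞) ≤ 4) := ⟨by norm_num⟩

/-! ### projection matrices -/

theorem exists_proj {J : Type*} [Fintype J] [DecidableEq J]
    (F : Submodule ℝ (EuclideanSpace ℝ J)) : ∃ P : J → J → ℝ,
    (∀ c : J → ℝ, (WithLp.toLp 2 (fun j => ∑ l, c l * P j l) : EuclideanSpace ℝ J) ∈ F) ∧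
    (∀ j, ∑ l, P j l ^ 2 = P j j) ∧ ∑ j, P j j = finrank ℝ F := by
  classical
  let u := stdOrthonormalBasis ℝ F
  have hon : ∀ a a', ∑ l, (u a : EuclideanSpace ℝ J) l * (u a' : EuclideanSpace ℝ J) l =
      if a = a' then 1 else 0 := by
    intro a a'
    have h := (orthonormal_iff_ite.1 u.orthonormal) a a'
    rw [← h]
    rw [Submodule.coe_inner, PiLp.inner_apply]
    refine Finset.sum_congr rfl fun l _ => ?_
    simp [mul_comm]
  refine ⟨fun j l => ∑ a, (u a : EuclideanSpace ℝ J) j * (u a : EuclideanSpace ℝ J) l, ?_, ?_, ?_⟩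
  · intro c
    have h : (WithLp.toLp 2 (fun j => ∑ l, c l * ∑ a, (u a : EuclideanSpace ℝ J) j *
        (u a : EuclideanSpace ℝ J) l) : EuclideanSpace ℝ J) =
        ∑ a, (∑ l, c l * (u a : EuclideanSpace ℝ J) l) • (u a : EuclideanSpace ℝ J) := by
      ext j
      simp only [WithLp.ofLp_sum, WithLp.ofLp_smul, Finset.sum_apply, Pi.smul_apply, smul_eq_mul,
        Finset.sum_mul, Finset.mul_sum]
      rw [Finset.sum_comm]
      exact Finset.sum_congr rfl fun a _ => Finset.sum_congr rfl fun l _ => by ring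
    rw [h]
    exact Submodule.sum_mem _ fun a _ => F.smul_mem _ (u a).2
  · intro j
    have h : ∀ l, (∑ a, (u a : EuclideanSpace ℝ J) j * (u a : EuclideanSpace ℝ J) l) ^ 2 =
        ∑ a, ∑ a', (u a : EuclideanSpace ℝ J) j * (u a' : EuclideanSpace ℝ J) j *
          ((u a : EuclideanSpace ℝ J) l * (u a' : EuclideanSpace ℝ J) l) := by
      intro l
      rw [sq, Finset.sum_mul_sum]
      exact Finset.sum_congr rfl fun a _ => Finset.sum_congr rfl fun a' _ => by ring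
    simp only [h]
    rw [Finset.sum_comm]
    refine Finset.sum_congr rfl fun a _ => ?_
    rw [Finset.sum_comm]
    simp only [← Finset.mul_sum, hon]
    simp
  · rw [Finset.sum_comm]
    simp only [hon]
    simp

/-! ### the spaces -/

/-- `ℓ₁^m(ℓ₄^b)` -/
abbrev Y (m b : ℕ) : Type := PiLp 1 (fun _ : Fin m => PiLp 4 (fun _ : Fin b => ℝ))

/-- `(ℓ₁^m(ℓ₄^b) ⊕ ℓ_∞^16)_4` -/
abbrev X (m b : ℕ) : Type := WithLp 4 (Y m b × (Fin 16 → ℝ))

variable {m b : ℕ}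

/-- the norm of a row -/
noncomputable def row (i : Fin m) : Seminorm ℝ (Y m b) :=
  Seminorm.of (fun x => ‖x i‖) (fun x y => by simpa using norm_add_le (x i) (y i))
    (fun a x => by simp [norm_smul])

theorem row_apply (i : Fin m) (x : Y m b) : row i x = ‖x i‖ := rfl

theorem sum_row (x : Y m b) : ∑ i, row i x = ‖x‖ := by
  rw [PiLp.norm_eq_of_L1]; rfl

theorem norm4_pow {ι : Type*} [Fintype ι] (x : PiLp 4 (fun _ : ι => ℝ)) :
    ‖x‖ ^ 4 = ∑ t, x t ^ 4 := by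
  rw [PiLp.norm_eq_of_nat 4 (by norm_num)]
  have h0 : 0 ≤ ∑ i, ‖x i‖ ^ 4 := Finset.sum_nonneg fun _ _ => by positivity
  rw [← Real.rpow_natCast, ← Real.rpow_mul h0]
  norm_num
  refine Finset.sum_congr rfl fun t _ => ?_
  rw [← abs_pow, abs_of_nonneg (by positivity)]

/-- functions as elements of `Y` -/
noncomputable def mk (f : Fin m × Fin b → ℝ) : Y m b :=
  WithLp.toLp 1 (fun i => WithLp.toLp 4 (fun t => f (i, t)))

theorem row_mk (f : Fin m × Fin b → ℝ) (i : Fin m) : row i (mk f) ^ 4 = ∑ t, f (i, t) ^ 4 := by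
  rw [row_apply, norm4_pow]
  rfl

/-- `Y` and Euclidean space -/
noncomputable def eY (m b : ℕ) : EuclideanSpace ℝ (Fin m × Fin b) ≃ₗ[ℝ] Y m b where
  toFun f := mk (fun j => f j)
  invFun y := WithLp.toLp 2 (fun j => y j.1 j.2)
  map_add' f g := by
    ext i t; rfl
  map_smul' c f := by
    ext i t; rfl
  left_inv f := by
    ext j; rfl
  right_inv y := by
    ext i t; rfl

/-- The main statement for `ℓ₁^m(ℓ₄^b)`. -/
theorem not_typeTwo_Y (lam : ℝ) (hl0 : 0 < lam) (hl1 : lam ≤ 1) (T : ℝ) (hT1 : 1 ≤ T)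
    (r2 K : ℕ) (hK : 1 ≤ K) (hr2 : 16 * T ^ 2 / (lam ^ 2 / 128) ^ 2 < r2)
    (hK2 : (4 * r2 + 3) / (K : ℝ) ≤ ((lam ^ 2 / 128) * lam) ^ 4 / (2 ^ 26 * T ^ 4))
    (m : ℕ) (hm : m = 2 * r2 * K ^ K) (E : Submodule ℝ (Y m K))
    (hE : lam * (m * K) ≤ finrank ℝ E) : ¬ TypeTwoLe E T := by
  intro hT
  obtain ⟨P, hP1, hP2, hP3⟩ := exists_proj (E.comap (eY m K).toLinearMap)
  refine main (m := m) (b := K) mk row sum_row row_mk E (P := P) ?_ hP2 lam hl0 hl1 ?_ T hT1 hT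
    r2 K hK rfl hr2 hK2 hm
  · intro c
    exact hP1 c
  · rw [hP3]
    have : finrank ℝ (E.comap (eY m K).toLinearMap) = finrank ℝ E :=
      ((eY m K).ofSubmodule' E).finrank_eq
    rw [this]
    exact hE

/-! ### cotype -/

theorem sum_sq_le {ι : Type*} [Fintype ι] {x : ι → ℝ} (hx : ∀ i, 0 ≤ x i) :
    ∑ i, x i ^ 2 ≤ (∑ i, x i) ^ 2 := by
  rw [sq (∑ i, x i), Finset.sum_mul_sum]
  refine Finset.sum_le_sum fun i _ => ?_
  calc x i ^ 2 = x i * x i := sq _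
    _ ≤ _ := Finset.single_le_sum (f := fun j => x i * x j) (fun j _ => mul_nonneg (hx i) (hx j))
        (Finset.mem_univ i)

theorem sign_mom {r : ℕ} (a : Fin r → ℝ) :
    (∑ ε : Fin r → Bool, (∑ i, sgn (ε i) * a i) ^ 2) / 2 ^ r = ∑ i, a i ^ 2 ∧
    (∑ ε : Fin r → Bool, (∑ i, sgn (ε i) * a i) ^ 4) / 2 ^ r ≤ 4 * (∑ i, a i ^ 2) ^ 2 := by
  have hW : ∀ ε : Fin r → Bool, Wt (fun _ : Bool => (1:ℝ) / 2) ε = 1 / 2 ^ r := by
    intro ε; simp [Wt]
  have hEE : ∀ F : (Fin r → Bool) → ℝ, EE (fun _ : Bool => (1:ℝ) / 2) F = (∑ ε, F ε) / 2 ^ r := by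
    intro F
    unfold EE
    rw [Finset.sum_div]
    exact Finset.sum_congr rfl fun ε _ => by rw [hW]; ring
  have h2 := mom2 (J := Fin r) (fun _ : Bool => (1:ℝ) / 2) sgn 1 (by norm_num)
    (by simp [sgn]) (by simp [sgn]) a univ
  have h4 := mom4 (J := Fin r) (fun _ : Bool => (1:ℝ) / 2) sgn 1 (fun _ => by norm_num) (by norm_num)
    (by simp [sgn]) (by simp [sgn]) (by simp [sgn]; norm_num) (by simp [sgn]; norm_num) a univ
  rw [hEE] at h2 h4
  refine ⟨by rw [h2, one_mul], h4.trans ?_⟩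
  have h5 : ∑ i, a i ^ 4 ≤ (∑ i, a i ^ 2) ^ 2 := by
    have : ∀ i, a i ^ 4 = (a i ^ 2) ^ 2 := fun i => by ring
    simp only [this]
    exact sum_sq_le fun i => sq_nonneg _
  linarith

/-- Khinchine's inequality in `L₁`, with the constant 2. -/
theorem khin {r : ℕ} (a : Fin r → ℝ) :
    Real.sqrt (∑ i, a i ^ 2) / 2 ≤ (∑ ε : Fin r → Bool, |∑ i, sgn (ε i) * a i|) / 2 ^ r := by
  set A := Real.sqrt (∑ i, a i ^ 2) with hA
  have hA0 : 0 ≤ A := Real.sqrt_nonneg _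
  have hA2 : A ^ 2 = ∑ i, a i ^ 2 := Real.sq_sqrt (Finset.sum_nonneg fun _ _ => sq_nonneg _)
  rcases hA0.eq_or_lt with h0 | h0
  · rw [← h0, zero_div]
    exact div_nonneg (Finset.sum_nonneg fun _ _ => abs_nonneg _) (by positivity)
  obtain ⟨h2, h4⟩ := sign_mom a
  rw [← hA2] at h2 h4
  have hpt : ∀ s : ℝ, 3 / (4 * A) * s ^ 2 - 1 / (16 * A ^ 3) * s ^ 4 ≤ |s| := by
    intro s
    have hs : s ^ 2 = |s| ^ 2 := (sq_abs s).symm
    have hs4 : s ^ 4 = |s| ^ 4 := by rw [← abs_pow, abs_of_nonneg (by positivity)]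
    rw [hs, hs4]
    set x := |s| with hx
    have hx0 : 0 ≤ x := abs_nonneg s
    have h5 : x - (3 / (4 * A) * x ^ 2 - 1 / (16 * A ^ 3) * x ^ 4) =
        x * (x - 2 * A) ^ 2 * (x + 4 * A) / (16 * A ^ 3) := by
      field_simp
      ring
    have h6 : 0 ≤ x * (x - 2 * A) ^ 2 * (x + 4 * A) / (16 * A ^ 3) := by positivity
    linarith
  have h7 : (∑ ε : Fin r → Bool, (3 / (4 * A) * (∑ i, sgn (ε i) * a i) ^ 2 -
      1 / (16 * A ^ 3) * (∑ i, sgn (ε i) * a i) ^ 4)) / 2 ^ r ≤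
      (∑ ε : Fin r → Bool, |∑ i, sgn (ε i) * a i|) / 2 ^ r :=
    div_le_div_of_nonneg_right (Finset.sum_le_sum fun ε _ => hpt _) (by positivity)
  refine le_trans ?_ h7
  rw [Finset.sum_sub_distrib, ← Finset.mul_sum, ← Finset.mul_sum, sub_div, mul_div_assoc,
    mul_div_assoc, h2]
  have h8 : 1 / (16 * A ^ 3) * ((∑ ε : Fin r → Bool, (∑ i, sgn (ε i) * a i) ^ 4) / 2 ^ r) ≤
      1 / (16 * A ^ 3) * (4 * (A ^ 2) ^ 2) := mul_le_mul_of_nonneg_left h4 (by positivity)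
  have h9 : 3 / (4 * A) * A ^ 2 - 1 / (16 * A ^ 3) * (4 * (A ^ 2) ^ 2) = A / 2 := by
    field_simp; ring
  linarith

end Run7.h35.TT
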